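import Pool.Agent.H13.TFG.RaagA

/-!
# Right-angled Artin groups extended by locally finite groups
-/

set_option autoImplicit false

namespace Pool.Agent.H13.TFG

/-- Proof (`RaagClass.of_local`). Let `s` be a finite subset of the semidirect product. Choose a finite subgroup `K` of
`A` containing the right parts and a finite set `S0` of vertices such that the left parts are in `vsub Γ S0`
(`exists_vsub`); let `S` be the finite `K`-invariant set of all `a • x`, `a ∈ K`, `x ∈ S0`. The elements with left part
in `vsub Γ S` and right part in `K` form a subgroup `P` containing `s`; the elements of `P` with right part `1` form a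
subgroup of finite index (kernel of a homomorphism to the finite group `K`), isomorphic to `vsub Γ S`. So `P` is in the
class by `vsub_mem`, `iso` and `index`. -/
theorem sd_mem {C : (G : Type) → [Group G] → Prop} (hC : RaagClass C) {V : Type}
    (Γ : SimpleGraph V) (A : Type) [Group A] [MulAction A V]
    (hA : ∀ (a : A) x y, Γ.Adj x y → Γ.Adj (a • x) (a • y))
    (hlf : ∀ s : Finset A, ∃ K : Subgroup A, Finite K ∧ (s : Set A) ⊆ K) :
    C (RAAG Γ ⋊[raagAct Γ A hA] A) := by
  classical
  refine hC.of_local ?_
  intro s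
  obtain ⟨K, hKf, hK⟩ := hlf (s.image (fun w => w.right))
  have h0 : ∀ w : RAAG Γ ⋊[raagAct Γ A hA] A, ∃ S : Set V, S.Finite ∧ w.left ∈ vsub Γ S :=
    fun w => exists_vsub Γ w.left
  choose S0 hS0f hS0m using h0
  let S : Set V := ⋃ w ∈ s, ⋃ a : K, (fun x => (a : A) • x) '' (S0 w)
  have hSf : S.Finite := by
    refine s.finite_toSet.biUnion ?_
    intro w _
    exact Set.finite_iUnion (fun a => (hS0f w).image _)
  have hSmem : ∀ y, y ∈ S ↔ ∃ w ∈ s, ∃ a ∈ K, ∃ x ∈ S0 w, a • x = y := by
    intro y
    simp only [S, Set.mem_iUnion, Set.mem_image, Subtype.exists, exists_prop]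
  have hSinv : ∀ a ∈ K, ∀ x ∈ S, a • x ∈ S := by
    intro a ha x hx
    obtain ⟨w, hw, b, hb, x', hx', rfl⟩ := (hSmem x).1 hx
    rw [← mul_smul]
    exact (hSmem _).2 ⟨w, hw, a * b, mul_mem ha hb, x', hx', rfl⟩
  have hact : ∀ a ∈ K, ∀ r ∈ vsub Γ S, raagAct Γ A hA a r ∈ vsub Γ S := by
    intro a ha r hr
    refine Subgroup.closure_induction (p := fun r _ => raagAct Γ A hA a r ∈ vsub Γ S) ?_ ?_ ?_ ?_ hr
    · rintro _ ⟨x, hx, rfl⟩
      rw [raagAct_gen]
      exact Subgroup.subset_closure ⟨a • x, hSinv a ha x hx, rfl⟩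
    · rw [map_one]
      exact one_mem _
    · intro x y _ _ hx hy
      rw [map_mul]
      exact mul_mem hx hy
    · intro x _ hx
      rw [map_inv]
      exact inv_mem hx
  let P : Subgroup (RAAG Γ ⋊[raagAct Γ A hA] A) :=
    { carrier := {w | w.left ∈ vsub Γ S ∧ w.right ∈ K}
      mul_mem' := by
        rintro v w ⟨hv1, hv2⟩ ⟨hw1, hw2⟩
        refine ⟨?_, ?_⟩
        · rw [SemidirectProduct.mul_left]
          exact mul_mem hv1 (hact _ hv2 _ hw1)
        · rw [SemidirectProduct.mul_right]
          exact mul_mem hv2 hw2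
      one_mem' := ⟨one_mem _, one_mem _⟩
      inv_mem' := by
        rintro v ⟨hv1, hv2⟩
        refine ⟨?_, ?_⟩
        · rw [SemidirectProduct.inv_left]
          exact hact _ (inv_mem hv2) _ (inv_mem hv1)
        · rw [SemidirectProduct.inv_right]
          exact inv_mem hv2 }
  refine ⟨P, ?_, ?_⟩
  · let f : P →* K :=
      { toFun := fun w => ⟨w.1.right, w.2.2⟩
        map_one' := rfl
        map_mul' := fun v w => rfl }
    have hfi : f.ker.FiniteIndex := by
      have : Finite f.range := inferInstance
      exact Subgroup.finiteIndex_ker f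
    refine hC.index P f.ker hfi ?_
    have hker : ∀ w : f.ker, w.1.1.right = 1 := by
      intro w
      have h1 : f w.1 = 1 := w.2
      exact congrArg Subtype.val h1
    let φ : f.ker →* vsub Γ S :=
      { toFun := fun w => ⟨w.1.1.left, w.1.2.1⟩
        map_one' := rfl
        map_mul' := by
          intro v w
          apply Subtype.ext
          change (v.1.1 * w.1.1).left = v.1.1.left * w.1.1.left
          rw [SemidirectProduct.mul_left, hker v, map_one]
          rfl }
    refine hC.of_injective φ ?_ (vsub_mem hC Γ S hSf)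
    intro v w hvw
    have h1 : v.1.1.left = w.1.1.left := congrArg Subtype.val hvw
    apply Subtype.ext
    apply Subtype.ext
    exact SemidirectProduct.ext h1 ((hker v).trans (hker w).symm)
  · intro w hw
    refine ⟨?_, hK ?_⟩
    · refine (Subgroup.closure_mono (Set.image_mono ?_) : vsub Γ (S0 w) ≤ vsub Γ S) (hS0m w)
      intro x hx
      exact (hSmem x).2 ⟨w, hw, 1, one_mem _, x, hx, one_smul _ _⟩
    · exact_mod_cast Finset.mem_image_of_mem (fun w => w.right) (Finset.mem_coe.1 hw)

end Pool.Agent.H13.TFG
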