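import Pool.Agent.H13.TFG.Defs

set_option autoImplicit false

namespace Pool.Agent.H13.TFG

namespace RaagClass

variable {C : (G : Type) → [Group G] → Prop} (hC : RaagClass C)
include hC

theorem of_injective {G H : Type} [Group G] [Group H] (φ : G →* H)
    (hφ : Function.Injective φ) (h : C H) : C G :=
  hC.iso φ.range G (MonoidHom.ofInjective hφ).symm (hC.sub H φ.range h)

/-- If every finite subset of `G` is contained in a subgroup which is in the class, then `G` is in the class. -/
theorem of_local {G : Type} [Group G]
    (h : ∀ s : Finset G, ∃ K : Subgroup G, C K ∧ (s : Set G) ⊆ K) : C G := by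
  let S : Finset G → Subgroup G := fun s => Subgroup.closure (s : Set G)
  have mono : ∀ i j, i ≤ j → S i ≤ S j := by
    intro s t hst
    exact Subgroup.closure_mono (by exact_mod_cast hst)
  refine hC.colim (Finset G) (fun i => S i) (fun i j h => Subgroup.inclusion (mono i j h)) G
    (fun i => (S i).subtype)
    { nonempty := ⟨∅⟩
      directed := fun i j => exists_ge_ge i j
      map_id := fun i h x => rfl
      map_comp := fun i j k _ _ _ x => rfl
      compat := fun i j h x => rfl
      surj := ?_
      ker := ?_ } ?_
  · intro y
    exact ⟨{y}, ⟨y, Subgroup.subset_closure (by simp)⟩, rfl⟩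
  · intro i x hx
    refine ⟨i, le_rfl, ?_⟩
    have : x = 1 := Subtype.ext hx
    rw [this, map_one]
  · intro s
    obtain ⟨K, hK, hs⟩ := h s
    have h1 : S s ≤ K := (Subgroup.closure_le K).2 hs
    exact hC.of_injective (Subgroup.inclusion h1) (Subgroup.inclusion_injective h1) hK

end RaagClass

end Pool.Agent.H13.TFG
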