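import Pool.Agent.H13.TFG.BlkA

/-!
# Sections are recurrent; the first return map of a section
-/

set_option autoImplicit false

namespace Pool.Agent.H13.TFG

variable {X : Type} {T : Equiv.Perm X} {B B' E F : Set X}

/-- A section is recurrent. Proof. Forward: `z = nx T B x ∈ B`, `z = T ^ (m+1) x` with `m = hit T B (T x)`; the point
`e ∈ E` with `bas T B e = z` is `e = T ^ (lev T B e) z` (`pow_lev_bas`). Backward: `z = bas T B x`,
`z' = bas T B (T⁻¹ z)`, `e ∈ E` with `bas T B e = z'`; then `nx T B e = nx T B z' = z` (`nx_bas`, `fst_bas_inv`), so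
`z = T ^ (m+1) e` with `m = hit T B (T e)` and `x = T ^ (lev T B x) z`, hence `e = T⁻¹ ^ (lev T B x + m + 1) x`. -/
theorem IsSec.rec' (hB : Rec T B) (hE : IsSec T B E) : Rec T E := by
  constructor
  · intro x
    obtain ⟨e, ⟨he, hb⟩, -⟩ := hE (nx T B x) (fst_mem hB (T x))
    refine ⟨lev T B e + (hit T B (T x) + 1), ?_⟩
    have h1 := pow_lev_bas (T := T) (E := B) e
    rw [hb] at h1
    have h2 : (T ^ (lev T B e + (hit T B (T x) + 1))) x = e := by
      rw [pow_add, pow_succ]
      exact h1
    rwa [h2]
  · intro x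
    have hz : bas T B x ∈ B := bas_mem hB x
    obtain ⟨e, ⟨he, hb⟩, -⟩ := hE (bas T B (T⁻¹ (bas T B x))) (bas_mem hB _)
    have h1 : nx T B e = bas T B x := by
      rw [← nx_bas hB e, hb]
      exact fst_bas_inv hB hz
    refine ⟨lev T B x + (hit T B (T e) + 1), ?_⟩
    have h2 : (T ^ (lev T B x + (hit T B (T e) + 1))) e = x := by
      rw [pow_add, pow_succ]
      have h3 : (T ^ hit T B (T e)) (T e) = bas T B x := h1
      change (T ^ lev T B x) ((T ^ hit T B (T e)) (T e)) = x
      rw [h3]
      exact pow_lev_bas x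
    have h4 : (T⁻¹ ^ (lev T B x + (hit T B (T e) + 1))) x = e := by
      rw [inv_pow, Equiv.Perm.inv_eq_iff_eq]
      exact h2.symm
    rwa [h4]

/-- From a point of the section `E` the first return map of `E` leads to the next block. Proof: let `z = nx T B x` and
let `e ∈ E` be the point with `bas T B e = z`. With `m = hit T B (T x)`, `e = T ^ (m + lev T B e) (T x)`. For `i < m`
the point `T ^ i (T x)` has base `bas T B x` and level `lev T B x + i + 1` (induction on `i` with `bas_apply`,
`lev_apply`), so it is not in `E`: by the uniqueness in `IsSec` it would be `x`, but the levels are different. For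
`i = m + j`, `j < lev T B e`, `T ^ i (T x) = T ^ j z` has base `z` and level `j` (`bas_pow`, the points
`T ^ k z`, `0 < k ≤ lev T B e` are not in `B` by `notMem_of_pos_le_lev`), and again it is not in `E`. So
`fst T E (T x) = e` (`fst_eq`). -/
theorem IsSec.bas_ret (hB : Rec T B) (hE : IsSec T B E) {x : X} (hx : x ∈ E) :
    bas T B (ret T E x) = nx T B x := by
  have hz : nx T B x ∈ B := fst_mem hB (T x)
  obtain ⟨e, ⟨he, hb⟩, -⟩ := hE (nx T B x) hz
  have hR := IsSec.rec' hB hE
  have h1 := pow_lev_bas (T := T) (E := B) e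
  rw [hb] at h1
  -- the points between `x` and the next point of `B`
  have key : ∀ i ≤ hit T B (T x), bas T B ((T ^ i) x) = bas T B x ∧
      lev T B ((T ^ i) x) = lev T B x + i := by
    intro i
    induction i with
    | zero => intro _; exact ⟨rfl, rfl⟩
    | succ n ih =>
      intro hn
      obtain ⟨ih1, ih2⟩ := ih (by omega)
      have h2 : (T ^ (n + 1)) x = T ((T ^ n) x) := by rw [pow_succ']; rfl
      have h3 : (T ^ (n + 1)) x = (T ^ n) (T x) := by rw [pow_succ]; rfl
      have h4 : T ((T ^ n) x) ∉ B := by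
        rw [← h2, h3]
        exact notMem_of_lt_hit (by omega)
      rw [h2, bas_apply hB h4, lev_apply hB h4, ih1, ih2]
      exact ⟨rfl, by omega⟩
  have hfst : fst T E (T x) = (T ^ (lev T B e + hit T B (T x))) (T x) := by
    apply fst_eq
    · have h2 : (T ^ (lev T B e + hit T B (T x))) (T x) = e := by
        rw [pow_add]
        exact h1
      rwa [h2]
    · intro i hi hmem
      rcases lt_or_ge i (hit T B (T x)) with h2 | h2
      · have h3 : (T ^ i) (T x) = (T ^ (i + 1)) x := by rw [pow_succ]; rfl
        rw [h3] at hmem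
        obtain ⟨k1, k2⟩ := key (i + 1) (by omega)
        have h4 := (hE (bas T B x) (bas_mem hB x)).unique ⟨hmem, k1⟩ ⟨hx, rfl⟩
        rw [h4] at k2
        omega
      · obtain ⟨j, rfl⟩ : ∃ j, i = j + hit T B (T x) := ⟨i - hit T B (T x), by omega⟩
        have h3 : (T ^ (j + hit T B (T x))) (T x) = (T ^ j) (nx T B x) := by
          rw [pow_add]; rfl
        rw [h3] at hmem
        have h4 : ∀ k, 0 < k → k ≤ j → (T ^ k) (nx T B x) ∉ B := by
          intro k k0 kj
          have h5 := notMem_of_pos_le_lev (T := T) (E := B) (x := e) (i := k) k0 (by omega)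
          rwa [hb] at h5
        obtain ⟨k1, k2⟩ := bas_pow hz h4
        have h6 := (hE (nx T B x) hz).unique ⟨hmem, k1⟩ ⟨he, hb⟩
        rw [h6] at k2
        omega
  rw [ret_of_mem hR hx, hfst]
  have h2 : (T ^ (lev T B e + hit T B (T x))) (T x) = e := by
    rw [pow_add]
    exact h1
  rw [h2, hb]

end Pool.Agent.H13.TFG
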