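import Pool.Agent.H13.TFG.Ret

/-!
# Blocks and sections

`B` is a recurrent set. The block of `z ∈ B` consists of the points `x` with `bas T B x = z`, that is of
`z, T z, ..., ` up to the point before the next visit to `B`. A set `E` is a section (`IsSec T B E`) if it meets every
block in exactly one point.
-/

set_option autoImplicit false

namespace Pool.Agent.H13.TFG

variable {X : Type} {T : Equiv.Perm X} {B B' E F : Set X}

/-- the next point of `B` strictly after `x` -/
noncomputable def nx (T : Equiv.Perm X) (B : Set X) (x : X) : X := fst T B (T x)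

/-- `E` meets every block of `B` in exactly one point -/
def IsSec (T : Equiv.Perm X) (B E : Set X) : Prop := ∀ z ∈ B, ∃! x, x ∈ E ∧ bas T B x = z

/-- Proof: induction on `lev T B x`. If `x ∈ B` then `bas T B x = x`. Otherwise put `y = T⁻¹ x`, `T y = x ∉ B`, so
`bas T B x = bas T B y`, `lev T B x = lev T B y + 1` (`bas_apply`, `lev_apply`) and
`nx T B y = fst T B x = fst T B (T x) = nx T B x` (`fst_of_notMem`). -/
theorem nx_bas (hB : Rec T B) (x : X) : nx T B (bas T B x) = nx T B x := by
  obtain ⟨n, hn⟩ : ∃ n, lev T B x = n := ⟨_, rfl⟩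
  induction n generalizing x with
  | zero =>
    have h1 := pow_lev_bas (T := T) (E := B) x
    rw [hn] at h1
    have h2 : bas T B x = x := h1
    rw [h2]
  | succ n ih =>
    have hx : x ∉ B := fun h' => by
      rw [lev_of_mem h'] at hn
      omega
    have h0 : T (T⁻¹ x) = x := T.apply_symm_apply x
    have hx' : T (T⁻¹ x) ∉ B := by rwa [h0]
    have h1 := bas_apply hB hx'
    have h2 := lev_apply hB hx'
    rw [h0] at h1 h2
    have h3 : lev T B (T⁻¹ x) = n := by omega
    rw [h1, ih (T⁻¹ x) h3]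
    have h4 : nx T B (T⁻¹ x) = fst T B x := by rw [nx, h0]
    rw [h4, fst_of_notMem hB hx, nx]

/-- Proof: `bas_inv_fst` for `bas T B x ∈ B` and `nx_bas`. -/
theorem bas_inv_nx (hB : Rec T B) (x : X) : bas T B (T⁻¹ (nx T B x)) = bas T B x := by
  rw [← nx_bas hB x]
  exact bas_inv_fst hB (bas_mem hB x)

/-- Proof: induction on `lev T B x`: clear if `x ∈ B`; otherwise `x ∉ B'` also and, with `y = T⁻¹ x`,
`bas T B x = bas T B y`, `bas T B' x = bas T B' y` (`bas_apply`). -/
theorem bas_bas (hB : Rec T B) (hB' : Rec T B') (h : B' ⊆ B) (x : X) :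
    bas T B' (bas T B x) = bas T B' x := by
  obtain ⟨n, hn⟩ : ∃ n, lev T B x = n := ⟨_, rfl⟩
  induction n generalizing x with
  | zero =>
    have h1 := pow_lev_bas (T := T) (E := B) x
    rw [hn] at h1
    have h2 : bas T B x = x := h1
    rw [h2]
  | succ n ih =>
    have hx : x ∉ B := fun h' => by
      rw [lev_of_mem h'] at hn
      omega
    have h0 : T (T⁻¹ x) = x := T.apply_symm_apply x
    have hx' : T (T⁻¹ x) ∉ B := by rwa [h0]
    have hx'' : T (T⁻¹ x) ∉ B' := fun h' => hx' (h h')
    have h1 := bas_apply hB hx'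
    have h2 := lev_apply hB hx'
    have h3 := bas_apply hB' hx''
    rw [h0] at h1 h2 h3
    have h4 : lev T B (T⁻¹ x) = n := by omega
    rw [h1, ih (T⁻¹ x) h4, h3]

/-- Proof: this is `bas_bas` for `T⁻¹`. -/
theorem fst_fst (hB : Rec T B) (hB' : Rec T B') (h : B' ⊆ B) (x : X) :
    fst T B' (fst T B x) = fst T B' x := by
  have := bas_bas hB.inv hB'.inv h x
  simpa [bas] using this

/-- Proof: `bas_bas` and `bas_of_mem`. -/
theorem bas_eq_of_mem (hB : Rec T B) (hB' : Rec T B') (h : B' ⊆ B) {x : X} (hx : bas T B x ∈ B') :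
    bas T B' x = bas T B x := by
  rw [← bas_bas hB hB' h x, bas_of_mem hx]

/-- Proof: `nx T B' x = fst T B' (T x) = fst T B' (nx T B x) = nx T B x` by `fst_fst` and `fst_of_mem`. -/
theorem nx_eq_of_mem (hB : Rec T B) (hB' : Rec T B') (h : B' ⊆ B) {x : X} (hx : nx T B x ∈ B') :
    nx T B' x = nx T B x := by
  have h1 : fst T B' (fst T B (T x)) = fst T B' (T x) := fst_fst hB hB' h (T x)
  have h2 : fst T B' (nx T B x) = nx T B x := fst_of_mem hx
  rw [nx, ← h1]
  exact h2

end Pool.Agent.H13.TFG
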