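import Pool.Agent.H98.FJ.Closed

/-!
# Topological full groups, right-angled Artin groups, classes of groups

The statement objects. `FullGroup T` is the topological full group of a homeomorphism `T`: the homeomorphisms `g` with
`g x = T ^ (n x) x` for a continuous function `n` into the integers. `RAAG Γ` is the right-angled Artin group of a
graph. `RaagClass C` says that the class of groups `C` contains the right-angled Artin groups of finite graphs and is
closed under isomorphism, subgroups, overgroups of finite index and directed colimits.
-/

set_option autoImplicit false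

namespace Pool.Agent.H13.TFG

open Pool.Agent.H98.FJ (IsColimit)

/-- The topological full group of the homeomorphism `T`: all homeomorphisms `g` for which there is a continuous
(that is, locally constant) function `n` with integer values such that `g x = T ^ (n x) x` for all `x`. -/
def FullGroup {X : Type} [TopologicalSpace X] (T : X ≃ₜ X) : Subgroup (X ≃ₜ X) where
  carrier := {g | ∃ n : X → ℤ, Continuous n ∧ ∀ x, g x = (T ^ n x) x}
  mul_mem' := by
    rintro g h ⟨n, hn, hg⟩ ⟨m, hm, hh⟩
    refine ⟨fun x => n (h x) + m x, (hn.comp h.continuous).add hm, fun x => ?_⟩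
    rw [zpow_add]
    change g (h x) = (T ^ n (h x)) ((T ^ m x) x)
    rw [← hh x, hg]
  one_mem' := ⟨fun _ => 0, continuous_const, fun x => rfl⟩
  inv_mem' := by
    rintro g ⟨n, hn, hg⟩
    refine ⟨fun x => -n (g⁻¹ x), (hn.comp (g⁻¹).continuous).neg, fun x => ?_⟩
    obtain ⟨y, rfl⟩ : ∃ y, g y = x := ⟨g⁻¹ x, g.apply_symm_apply x⟩
    have h1 : g⁻¹ (g y) = y := g.symm_apply_apply y
    change g⁻¹ (g y) = (T ^ (-n (g⁻¹ (g y)))) (g y)
    rw [h1, hg y, zpow_neg]
    exact ((T ^ n y).symm_apply_apply y).symm

/-- `T` has a point which is not periodic and lies in the closure of every forward orbit and of every backward orbit. A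
minimal homeomorphism of an infinite compact Hausdorff space has this property (every point will do). -/
def EssMinimal {X : Type} [TopologicalSpace X] (T : X ≃ₜ X) : Prop :=
  ∃ x0 : X, (∀ n : ℤ, n ≠ 0 → (T ^ n) x0 ≠ x0) ∧
    ∀ x, x0 ∈ closure (Set.range fun n : ℕ => (T ^ n) x) ∧
      x0 ∈ closure (Set.range fun n : ℕ => (T⁻¹ ^ n) x)

/-- The relators of the right-angled Artin group of `Γ`: the commutators of adjacent vertices. -/
def raagRels {V : Type} (Γ : SimpleGraph V) : Set (FreeGroup V) :=
  {r | ∃ a b, Γ.Adj a b ∧
    r = FreeGroup.of a * FreeGroup.of b * (FreeGroup.of a)⁻¹ * (FreeGroup.of b)⁻¹}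

/-- The right-angled Artin group of the graph `Γ`: one generator for each vertex, adjacent vertices commute. -/
abbrev RAAG {V : Type} (Γ : SimpleGraph V) : Type := PresentedGroup (raagRels Γ)

/-- A class of (small) groups which contains the right-angled Artin groups of finite graphs and is closed under
isomorphism, subgroups, overgroups of finite index and directed colimits (with arbitrary structure maps). -/
structure RaagClass (C : (G : Type) → [Group G] → Prop) : Prop where
  /-- closed under isomorphism -/
  iso : ∀ (G H : Type) [Group G] [Group H], (G ≃* H) → C G → C H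
  /-- right-angled Artin groups of finite graphs -/
  raag : ∀ (V : Type) [Finite V] (Γ : SimpleGraph V), C (RAAG Γ)
  /-- closed under subgroups -/
  sub : ∀ (G : Type) [Group G] (H : Subgroup G), C G → C H
  /-- closed under overgroups of finite index -/
  index : ∀ (G : Type) [Group G] (H : Subgroup G), H.FiniteIndex → C H → C G
  /-- closed under directed colimits -/
  colim : ∀ (ι : Type) [Preorder ι] (G : ι → Type) [∀ i, Group (G i)]
    (f : ∀ i j, i ≤ j → (G i →* G j)) (H : Type) [Group H] (φ : ∀ i, G i →* H),
    IsColimit f φ → (∀ i, C (G i)) → C H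

end Pool.Agent.H13.TFG
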