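import Pool.Agent.H13.TFG.Sys

/-!
# The group `AG T B` is locally finite
-/

set_option autoImplicit false

namespace Pool.Agent.H13.TFG

variable {X : Type} [TopologicalSpace X] {T : X ≃ₜ X} {x0 : X}

/-- Finitely many block preserving elements generate a finite group. Proof (no topology is needed, only that levels are
bounded). Let `N` bound `lev (pT T) B` (`S.bdd`). An `a` in `AG T B` satisfies `a x = T ^ (lev (a x)) (bas x)`
(`pow_lev_bas`). The type of `z ∈ B` is the function `ty z : s → Fin (N + 1) → Fin (N + 1)`,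
`ty z a i = lev (a (T ^ i z))`, together with the set of the `i ≤ N` with `T ^ i z` in the block of `z`
(`bas (T ^ i z) = z` and `lev (T ^ i z) = i`): finitely many types. Claim: for `a` in the closure of `s` and `z, z'` of
the same type, and `i` such that `T ^ i z` is in the block of `z`: `lev (a (T ^ i z)) = lev (a (T ^ i z'))` (closure
induction; `a (T ^ i z) = T ^ k z` with `k = lev (a (T ^ i z))`; for the inverse: if `a⁻¹ (T ^ i z) = T ^ k z` then
`a (T ^ k z') = T ^ i z'`, so `a⁻¹ (T ^ i z') = T ^ k z'`). Choose a representative for each type; `a` in the closure is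
determined by the levels of `a (T ^ i z)` for the representatives `z` and `i ≤ N`: the closure is finite. -/
theorem AG_locallyFinite (S : Sys T x0) (B : Nb x0) (s : Finset (AG T B.set)) :
    ∃ K : Subgroup (AG T B.set), Finite K ∧ (s : Set (AG T B.set)) ⊆ K := by
  classical
  obtain ⟨N, hN⟩ := S.bdd B.set B.clopen (B.rec' S)
  have hR := B.rec' S
  -- the blocks
  let ι : ∀ z : X, {x : X // bas (pT T) B.set x = z} ↪ Fin (N + 1) := fun z =>
    ⟨fun x => ⟨lev (pT T) B.set x.1, by have := (hN x.1).2; omega⟩, by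
      intro x y hxy
      have h1 : lev (pT T) B.set x.1 = lev (pT T) B.set y.1 := congrArg Fin.val hxy
      apply Subtype.ext
      rw [← pow_lev_bas (T := pT T) (E := B.set) x.1, ← pow_lev_bas (T := pT T) (E := B.set) y.1, h1,
        x.2, y.2]⟩
  let σ : ∀ z : X, AG T B.set →* Equiv.Perm {x : X // bas (pT T) B.set x = z} := fun z =>
    { toFun := fun a => a.1.subtypePerm (fun x => by rw [a.2.2 x])
      map_one' := rfl
      map_mul' := fun a b => rfl }
  let ρ : ∀ z : X, AG T B.set →* Equiv.Perm (Fin (N + 1)) := fun z =>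
    (Equiv.Perm.viaEmbeddingHom (ι z)).comp (σ z)
  have hρ : ∀ (z : X) (a : AG T B.set) (x : {x : X // bas (pT T) B.set x = z}),
      ρ z a (ι z x) = ι z (σ z a x) := by
    intro z a x
    change (Equiv.Perm.viaEmbeddingHom (ι z) (σ z a)) (ι z x) = _
    rw [Equiv.Perm.viaEmbeddingHom_apply]
    exact Equiv.Perm.viaEmbedding_apply _ _ _
  -- the types
  let ty : X → (s → Equiv.Perm (Fin (N + 1))) := fun z a => ρ z a.1
  refine ⟨Subgroup.closure (s : Set (AG T B.set)), ?_, Subgroup.subset_closure⟩
  let rep : (s → Equiv.Perm (Fin (N + 1))) → X := fun θ =>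
    if h : ∃ z, ty z = θ then h.choose else x0
  have hrep : ∀ z, ty (rep (ty z)) = ty z := by
    intro z
    have h : ∃ z', ty z' = ty z := ⟨z, rfl⟩
    have h1 : rep (ty z) = h.choose := dif_pos h
    rw [h1]
    exact h.choose_spec
  have heq : ∀ z, ∀ a ∈ Subgroup.closure (s : Set (AG T B.set)), ρ z a = ρ (rep (ty z)) a := by
    intro z a ha
    refine MonoidHom.eqOn_closure (f := ρ z) (g := ρ (rep (ty z))) ?_ ha
    intro b hb
    exact (congrFun (hrep z) ⟨b, hb⟩).symm
  let F : Subgroup.closure (s : Set (AG T B.set)) →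
      ((s → Equiv.Perm (Fin (N + 1))) → Equiv.Perm (Fin (N + 1))) := fun a θ => ρ (rep θ) a.1
  refine Finite.of_injective F ?_
  intro a b hab
  apply Subtype.ext
  apply Subtype.ext
  apply Equiv.ext
  intro x
  have h1 : ρ (bas (pT T) B.set x) a.1 = ρ (bas (pT T) B.set x) b.1 := by
    rw [heq _ a.1 a.2, heq _ b.1 b.2]
    exact congrFun hab (ty (bas (pT T) B.set x))
  have h2 := hρ (bas (pT T) B.set x) a.1 ⟨x, rfl⟩
  rw [h1, hρ] at h2
  have h3 := (ι (bas (pT T) B.set x)).injective h2
  exact (congrArg Subtype.val h3).symm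

end Pool.Agent.H13.TFG
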