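import Pool.Agent.H13.TFG.Sys

/-!
# Minimal homeomorphisms
-/

set_option autoImplicit false

namespace Pool.Agent.H13.TFG

variable {X : Type} [TopologicalSpace X]

theorem pow_mem_iff (T : X ≃ₜ X) (i : ℕ) (x : X) : (pT T ^ i) x = (T ^ (i : ℤ)) x := by
  rw [← zpow_natCast, ← toPerm_zpow]
  rfl

theorem inv_pow_mem_iff (T : X ≃ₜ X) (i : ℕ) (x : X) : ((pT T)⁻¹ ^ i) x = (T ^ (-(i : ℤ))) x := by
  rw [← zpow_natCast, inv_zpow', ← toPerm_zpow]
  rfl

/-- A homeomorphism of a compact Hausdorff space with a non-periodic point in the closure of every forward and every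
backward orbit has the properties `Sys`. -/
theorem sys_of_essMinimal [CompactSpace X] [T2Space X] (T : X ≃ₜ X) (hT : EssMinimal T) :
    ∃ x0, Sys T x0 := by
  obtain ⟨x0, h0, h1⟩ := hT
  have hrec : ∀ E : Set X, IsClopen E → x0 ∈ E → Rec (pT T) E := by
    intro E hE hx
    refine ⟨fun x => ?_, fun x => ?_⟩
    · obtain ⟨y, hy, n, rfl⟩ := mem_closure_iff.1 (h1 x).1 E hE.2 hx
      refine ⟨n, ?_⟩
      rw [pow_mem_iff, zpow_natCast]
      exact hy
    · obtain ⟨y, hy, n, rfl⟩ := mem_closure_iff.1 (h1 x).2 E hE.2 hx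
      refine ⟨n, ?_⟩
      rw [inv_pow_mem_iff, zpow_neg, zpow_natCast, ← inv_pow]
      exact hy
  have hcomp : ∀ (U : Homeomorph X X) (E : Set X), IsClopen E → (∀ x, ∃ n : ℕ, (pT U ^ n) x ∈ E) →
      ∃ N : ℕ, ∀ x, ∃ i ≤ N, (pT U ^ i) x ∈ E := by
    intro U E hE hU
    obtain ⟨t, ht⟩ := isCompact_univ.elim_finite_subcover (fun n : ℕ => (U ^ n) ⁻¹' E)
      (fun n => hE.2.preimage (U ^ n).continuous) (by
        intro x _
        obtain ⟨n, hn⟩ := hU x
        rw [pow_mem_iff, zpow_natCast] at hn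
        exact Set.mem_iUnion.2 ⟨n, hn⟩)
    refine ⟨t.sup id, fun x => ?_⟩
    have hx := ht (Set.mem_univ x)
    simp only [Set.mem_iUnion] at hx
    obtain ⟨n, hn, hx⟩ := hx
    refine ⟨n, Finset.le_sup (f := id) hn, ?_⟩
    rw [pow_mem_iff, zpow_natCast]
    exact hx
  refine ⟨x0, hrec, ?_, ?_⟩
  · intro E hE hR
    obtain ⟨N, hN⟩ := hcomp T E hE hR.1
    obtain ⟨M, hM⟩ := hcomp T⁻¹ E hE hR.2
    refine ⟨max N M, fun x => ⟨?_, ?_⟩⟩
    · obtain ⟨i, hi, hx⟩ := hN x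
      exact (Nat.sInf_le hx).trans (hi.trans (le_max_left _ _))
    · obtain ⟨i, hi, hx⟩ := hM x
      exact (Nat.sInf_le hx).trans (hi.trans (le_max_right _ _))
  · intro x n hx
    by_contra hn
    have h2 : ∀ k : ℤ, (T ^ k) x = (pT T ^ k) x := fun k => by
      rw [← toPerm_zpow]
      rfl
    have h3 : (Set.range fun m : ℕ => (T ^ m) x) ⊆
        (fun m : ℤ => (T ^ m) x) '' (Set.Icc 0 |n|) := by
      rintro _ ⟨m, rfl⟩
      refine ⟨(m : ℤ) % n, ⟨Int.emod_nonneg _ hn, (Int.emod_lt_abs _ hn).le⟩, ?_⟩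
      change (T ^ ((m : ℤ) % n)) x = (T ^ m) x
      rw [← zpow_natCast, h2, h2]
      have h3 : (m : ℤ) = m % n + n * (m / n) := by
        have := Int.emod_add_mul_ediv (m : ℤ) n
        linarith
      have h4 : (pT T ^ (m : ℤ)) x = (pT T ^ ((m : ℤ) % n)) ((pT T ^ (n * ((m : ℤ) / n))) x) := by
        conv_lhs => rw [h3]
        rw [zpow_add]
        rfl
      rw [h4, zpow_mul, Equiv.Perm.zpow_apply_eq_self_of_apply_eq_self hx]
    have h4 : ((fun m : ℤ => (T ^ m) x) '' (Set.Icc 0 |n|)).Finite := (Set.finite_Icc 0 |n|).image _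
    have h5 : x0 ∈ (fun m : ℤ => (T ^ m) x) '' (Set.Icc 0 |n|) :=
      closure_minimal h3 h4.isClosed (h1 x).1
    obtain ⟨m, _, hm⟩ := h5
    apply h0 n hn
    rw [← hm]
    change (T ^ n) ((T ^ m) x) = (T ^ m) x
    have h6 : (T ^ n) ((T ^ m) x) = (T ^ m) ((T ^ n) x) := by
      have h7 : T ^ n * T ^ m = T ^ m * T ^ n := by rw [← zpow_add, ← zpow_add, add_comm]
      exact congrArg (fun g : X ≃ₜ X => g x) h7
    rw [h6, h2 n, hx]

/-- A minimal homeomorphism of an infinite compact Hausdorff space is `EssMinimal`. -/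
theorem essMinimal_of_minimal [CompactSpace X] [T2Space X] [Infinite X] (T : X ≃ₜ X)
    (hT : ∀ x, Dense (Set.range fun n : ℤ => (T ^ n) x)) : EssMinimal T := by
  have key : ∀ (x : X) (U : Set X), IsOpen U → U.Nonempty → ∃ M : ℕ, ∀ y, ∃ n : ℤ, |n| ≤ M ∧ (T ^ n) y ∈ U := by
    intro x U hU hne
    obtain ⟨t, ht⟩ := isCompact_univ.elim_finite_subcover (fun n : ℤ => (T ^ n) ⁻¹' U)
      (fun n => hU.preimage (T ^ n).continuous) (by
        intro y _
        obtain ⟨z, ⟨n, rfl⟩, hz⟩ := (hT y).exists_mem_open hU hne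
        exact Set.mem_iUnion.2 ⟨n, hz⟩)
    refine ⟨t.sup Int.natAbs, fun y => ?_⟩
    have hy := ht (Set.mem_univ y)
    simp only [Set.mem_iUnion] at hy
    obtain ⟨n, hn, hy⟩ := hy
    refine ⟨n, ?_, hy⟩
    have h1 : n.natAbs ≤ t.sup Int.natAbs := Finset.le_sup hn
    rw [Int.abs_eq_natAbs]
    exact_mod_cast h1
  obtain ⟨x0⟩ : Nonempty X := inferInstance
  refine ⟨x0, ?_, ?_⟩
  · intro n hn hx
    have h2 : ∀ k : ℤ, (T ^ k) x0 = (pT T ^ k) x0 := fun k => by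
      rw [← toPerm_zpow]
      rfl
    have h1 : (Set.range fun m : ℤ => (T ^ m) x0) ⊆
        (fun m : ℤ => (T ^ m) x0) '' (Set.Icc 0 |n|) := by
      rintro _ ⟨m, rfl⟩
      refine ⟨m % n, ⟨Int.emod_nonneg m hn, (Int.emod_lt_abs m hn).le⟩, ?_⟩
      change (T ^ (m % n)) x0 = (T ^ m) x0
      rw [h2, h2]
      have h3 : m = m % n + n * (m / n) := by
        have := Int.emod_add_mul_ediv m n
        linarith
      have h4 : (pT T ^ m) x0 = (pT T ^ (m % n)) ((pT T ^ (n * (m / n))) x0) := by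
        conv_lhs => rw [h3]
        rw [zpow_add]
        rfl
      rw [h2] at hx
      rw [h4, zpow_mul, Equiv.Perm.zpow_apply_eq_self_of_apply_eq_self hx]
    have h5 : (Set.range fun m : ℤ => (T ^ m) x0).Finite := ((Set.finite_Icc 0 |n|).image _).subset h1
    have h3 := h5.isClosed.closure_eq
    rw [(hT x0).closure_eq] at h3
    rw [← h3] at h5
    exact Set.infinite_univ h5
  · intro x
    constructor
    · rw [mem_closure_iff]
      intro U hU hx0
      obtain ⟨M, hM⟩ := key x U hU ⟨x0, hx0⟩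
      obtain ⟨n, hn, hx⟩ := hM ((T ^ (M : ℤ)) x)
      have h1 : (T ^ n) ((T ^ (M : ℤ)) x) = (T ^ (n + M)) x := by
        rw [zpow_add]
        rfl
      rw [abs_le] at hn
      obtain ⟨i, hi⟩ := Int.eq_ofNat_of_zero_le (show 0 ≤ n + M by linarith)
      refine ⟨(T ^ i) x, ?_, i, rfl⟩
      rw [← zpow_natCast, ← hi, ← h1]
      exact hx
    · rw [mem_closure_iff]
      intro U hU hx0
      obtain ⟨M, hM⟩ := key x U hU ⟨x0, hx0⟩
      obtain ⟨n, hn, hx⟩ := hM ((T ^ (-(M : ℤ))) x)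
      have h1 : (T ^ n) ((T ^ (-(M : ℤ))) x) = (T ^ (n + -M)) x := by
        rw [zpow_add]
        rfl
      rw [abs_le] at hn
      obtain ⟨i, hi⟩ := Int.eq_ofNat_of_zero_le (show 0 ≤ M - n by linarith)
      refine ⟨(T⁻¹ ^ i) x, ?_, i, rfl⟩
      have h2 : (T⁻¹ ^ i) x = (T ^ (-(i : ℤ))) x := by
        rw [inv_pow, ← zpow_natCast, ← zpow_neg]
      rw [h2, show (-(i : ℤ)) = n + -M by omega, ← h1]
      exact hx

end Pool.Agent.H13.TFG
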