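import Pool.Agent.H13.TFG.Zet

/-!
# Every element of the topological full group is reached
-/

set_option autoImplicit false

namespace Pool.Agent.H13.TFG

variable {X : Type} [TopologicalSpace X] {T : X ≃ₜ X} {x0 : X}

open SemidirectProduct (inl inr)

private theorem ont_bas_pow {Y : Type} {P : Equiv.Perm Y} {E : Set Y} (hE : Rec P E) (x : Y) (m : ℕ)
    (h : ∀ i : ℕ, 0 < i → i ≤ m → (P ^ i) x ∉ E) : bas P E ((P ^ m) x) = bas P E x := by
  induction m with
  | zero => rfl
  | succ m ih =>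
    have h1 : (P ^ (m + 1)) x = P ((P ^ m) x) := by rw [pow_succ']; rfl
    have h2 : P ((P ^ m) x) ∉ E := by
      rw [← h1]
      exact h (m + 1) (by omega) le_rfl
    rw [h1, bas_apply hE h2]
    exact ih (fun i h0 hi => h i h0 (by omega))

private theorem ont_zpow_add {Y : Type} (P : Equiv.Perm Y) (a b : ℤ) (x : Y) :
    (P ^ a) ((P ^ b) x) = (P ^ (a + b)) x := by
  rw [zpow_add]; rfl

/-- base point of `T ^ k z` for `0 ≤ k` -/
private theorem ont_bas_nonneg {B : Set X} {R : ℤ} {L : Set (Set X)} (h : Small T B R L) {k : ℤ}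
    (hk0 : 0 ≤ k) (hk : k ≤ R) {z : X} (hz : z ∈ B) : bas (pT T) B ((pT T ^ k) z) = z := by
  obtain ⟨m, rfl⟩ := Int.eq_ofNat_of_zero_le hk0
  rw [zpow_natCast]
  refine (bas_pow hz ?_).1
  intro i h0 hi
  have := h.sep (i : ℤ) (by omega) (by rw [abs_of_nonneg (by omega)]; omega) z hz
  rwa [zpow_natCast] at this

/-- next visit of `T ^ k z` for `k < 0` -/
private theorem ont_nx_neg {B : Set X} {R : ℤ} {L : Set (Set X)} (h : Small T B R L) {k : ℤ}
    (hk0 : k < 0) (hk : |k| ≤ R) {z : X} (hz : z ∈ B) : nx (pT T) B ((pT T ^ k) z) = z := by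
  obtain ⟨m, hm⟩ : ∃ m : ℕ, k = -((m : ℤ) + 1) := ⟨(-k - 1).toNat, by omega⟩
  subst hm
  have hk' : (m : ℤ) + 1 ≤ R := by
    have := abs_nonneg (-((m : ℤ) + 1))
    rw [abs_neg, abs_of_nonneg (by omega)] at hk
    exact hk
  have h1 : pT T ((pT T ^ (-((m : ℤ) + 1))) z) = (pT T ^ (-(m : ℤ))) z := by
    have h2 := ont_zpow_add (pT T) 1 (-((m : ℤ) + 1)) z
    rw [zpow_one] at h2
    rw [h2]
    congr 2
    omega
  rw [nx, h1]
  have h3 : ∀ i : ℕ, (pT T ^ i) ((pT T ^ (-(m : ℤ))) z) = (pT T ^ ((i : ℤ) - m)) z := by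
    intro i
    rw [← zpow_natCast, ont_zpow_add, sub_eq_add_neg]
  have h4 : (pT T ^ m) ((pT T ^ (-(m : ℤ))) z) = z := by
    rw [h3 m, sub_self, zpow_zero]; rfl
  rw [fst_eq (n := m) (by rw [h4]; exact hz) ?_, h4]
  intro i hi
  rw [h3 i]
  exact h.sep ((i : ℤ) - m) (by omega) (by rw [abs_le]; constructor <;> omega) z hz

private theorem ont_bas_neg {B : Set X} (hR : Rec (pT T) B) {R : ℤ} {L : Set (Set X)}
    (h : Small T B R L) {k : ℤ} (hk0 : k < 0) (hk : |k| ≤ R) {z : X} (hz : z ∈ B) :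
    bas (pT T) B ((pT T ^ k) z) = bas (pT T) B ((pT T)⁻¹ z) := by
  rw [← bas_inv_nx hR ((pT T ^ k) z), ont_nx_neg h hk0 hk hz]

/-- In a small `B`, elements with bounded displacement preserve blocks up to windows. Proof. `g x = T ^ (n x) x`,
`|n x| ≤ d`. Let `B` be small for `2 * R`, `R = 2 * d + 1`, and the sets `{x | n' x = m}`, `|m| ≤ d`, where `n'` is the
displacement of `g⁻¹` (`n' = - n ∘ g⁻¹`). For `|k| ≤ d` let `j k = k + n' (T ^ k x0)`: then
`g⁻¹ (T ^ k z) = T ^ (j k) z` for all `z ∈ B`. Put `ε k = 1` if `0 ≤ k` and `j k < 0`, `ε k = -1` if `k < 0` and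
`0 ≤ j k`, `ε k = 0` otherwise (also for `|k| > d`). Let `τ` be as in `exists_tau` for `ε`, `t = psi S B (inl τ)`.
Claim: `t⁻¹ * g` preserves the blocks of `B`. Let `y = g x`. `t⁻¹` acts on the window `k` as
`ret (win k) ^ (- ε k)`, and `nx T B ((ret (win k)) y) = nx (nx y)` etc.:
(i) `y = T ^ k z`, `z ∈ B`, `ε k = 1`: `bas y = z` (`k ≤ d < R`), `t⁻¹ y = (ret (win k))⁻¹ y` has base
`bas T B (T⁻¹ z)` (the previous base point: apply `IsSec.bas_ret` to `u = (ret (win k))⁻¹ y`: `nx T B u = bas y = z`,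
and `bas_inv_nx`); `x = T ^ (j k) z` with `-2 * d ≤ j k < 0`, so `nx T B x = z` and `bas x = bas T B (T⁻¹ z)`.
(ii) `y = T ^ k z`, `ε k = -1`: `nx T B y = z`, `t⁻¹ y = ret (win k) y` has base `nx T B y = z` (`IsSec.bas_ret`), and
`x = T ^ (j k) z`, `0 ≤ j k ≤ 2 * d`, has base `z`.
(iii) otherwise `t⁻¹ y = y`, and `bas x = bas y`: if not, there is a visit `z ∈ B` between `x` and `y`: `x = T ^ j z`,
`y = T ^ k z` with `j < 0 ≤ k` or `k < 0 ≤ j`, `|k - j| ≤ d`, so `j = j k` and `ε k ≠ 0`. -/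
theorem exists_tau_pres (S : Sys T x0) (B : Nb x0) {g : Equiv.Perm X} {n : X → ℤ}
    (hg : ∀ x, g x = (pT T ^ n x) x) {d : ℤ} (hd : ∀ x, |n x| ≤ d)
    (hB : Small T B.set (2 * (2 * d + 1)) {E | ∃ m : ℤ, |m| ≤ d ∧ E = {x | n (g⁻¹ x) = m}}) :
    ∃ τ : RAAG (GR T B.set), Pres (pT T) B.set ((psi S B (inl τ))⁻¹ * g) := by
  classical
  have hd0 : 0 ≤ d := le_trans (abs_nonneg _) (hd x0)
  have hR := B.rec' S
  have hB0 : Small T B.set (2 * (2 * d + 1)) ∅ := hB.mono le_rfl (Set.empty_subset _)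
  have hB1 : Small T B.set (2 * d + 1) ∅ := hB0.mono (by omega) subset_rfl
  -- the displacement on the translates of `B`
  set j : ℤ → ℤ := fun k => k - n (g⁻¹ ((pT T ^ k) x0)) with hj
  have hjk : ∀ k, |j k - k| ≤ d := by
    intro k
    have := hd (g⁻¹ ((pT T ^ k) x0))
    have e : j k - k = - n (g⁻¹ ((pT T ^ k) x0)) := by simp only [hj]; ring
    rw [e, abs_neg]
    exact this
  have hgi : ∀ k : ℤ, |k| ≤ 2 * d + 1 → ∀ z ∈ B.set, g⁻¹ ((pT T ^ k) z) = (pT T ^ (j k)) z := by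
    intro k hk z hz
    have h1 : n (g⁻¹ ((pT T ^ k) z)) = n (g⁻¹ ((pT T ^ k) x0)) :=
      hB.uni {x | n (g⁻¹ x) = n (g⁻¹ ((pT T ^ k) x0))}
        ⟨n (g⁻¹ ((pT T ^ k) x0)), hd _, rfl⟩ k (by omega) x0 B.mem z hz rfl
    have h2 : g (g⁻¹ ((pT T ^ k) z)) = (pT T ^ k) z := by simp
    rw [hg] at h2
    have h3 : (pT T ^ (-n (g⁻¹ ((pT T ^ k) z))))
        ((pT T ^ n (g⁻¹ ((pT T ^ k) z))) (g⁻¹ ((pT T ^ k) z))) =
        (pT T ^ (-n (g⁻¹ ((pT T ^ k) z)))) ((pT T ^ k) z) := by rw [h2]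
    rw [ont_zpow_add, ont_zpow_add, neg_add_cancel, zpow_zero] at h3
    change g⁻¹ ((pT T ^ k) z) = _ at h3
    rw [h1] at h3
    rw [h3]
    congr 2
    simp only [hj]
    ring
  set ε : ℤ → ℤ := fun k => if |k| ≤ d ∧ 0 ≤ k ∧ j k < 0 then 1 else
    if |k| ≤ d ∧ k < 0 ∧ 0 ≤ j k then -1 else 0 with hε
  obtain ⟨τ, hτ1, hτ2⟩ := exists_tau S B hB0 ε
  refine ⟨τ, ?_⟩
  set t := psi S B (inl τ) with ht
  intro x
  change bas (pT T) B.set (t⁻¹ (g x)) = bas (pT T) B.set x
  set y := g x with hy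
  have hxy : g⁻¹ y = x := by rw [hy]; simp
  by_cases hc : ∃ k : ℤ, |k| ≤ d ∧ y ∈ win T B.set k
  · obtain ⟨k, hk, hyk⟩ := hc
    obtain ⟨z, hz, hzy⟩ := id hyk
    have hk' := abs_le.1 hk
    have hjk' := abs_le.1 (hjk k)
    have hkR : |k| ≤ 2 * d + 1 := by omega
    have hx : x = (pT T ^ (j k)) z := by
      rw [← hxy, ← hzy]
      exact hgi k hkR z hz
    have hsec := isSec_win S B hB1 (k := k) hkR
    have hrec : Rec (pT T) (win T B.set k) := hsec.rec' hR
    by_cases h0 : 0 ≤ k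
    · have hby : bas (pT T) B.set y = z := by
        rw [← hzy]
        exact ont_bas_nonneg hB0 h0 (by omega) hz
      by_cases h1 : j k < 0
      · -- exchange at the window
        have hε1 : ε k = 1 := by simp only [hε]; rw [if_pos ⟨hk, h0, h1⟩]
        set u := (ret (pT T) (win T B.set k))⁻¹ y with hu
        have hum : u ∈ win T B.set k := ret_inv_mem hrec hyk
        have hru : ret (pT T) (win T B.set k) u = y := by rw [hu]; simp
        have htu : t u = y := by
          rw [hτ1 k hkR u hum, hε1, zpow_one]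
          exact hru
        have htiu : t⁻¹ y = u := by rw [← htu]; simp
        have hnu : nx (pT T) B.set u = z := by
          rw [← hsec.bas_ret hR hum, hru]
          exact hby
        rw [htiu, ← bas_inv_nx hR u, hnu, hx]
        exact (ont_bas_neg hR hB0 h1 (by rw [abs_le]; constructor <;> omega) hz).symm
      · have hε1 : ε k = 0 := by
          simp only [hε]
          rw [if_neg (fun h => h1 h.2.2), if_neg (fun h => by omega)]
        have hty : t y = y := by
          rw [hτ1 k hkR y hyk, hε1, zpow_zero]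
          rfl
        have htiy : t⁻¹ y = y := by
          conv_lhs => rw [← hty]
          simp
        rw [htiy, hby, hx]
        exact (ont_bas_nonneg hB0 (by omega) (by omega) hz).symm
    · have h0' : k < 0 := by omega
      have hny : nx (pT T) B.set y = z := by
        rw [← hzy]
        exact ont_nx_neg hB0 h0' (by omega) hz
      by_cases h1 : 0 ≤ j k
      · have hε1 : ε k = -1 := by
          simp only [hε]
          rw [if_neg (fun h => h0 h.2.1), if_pos ⟨hk, h0', h1⟩]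
        set u := ret (pT T) (win T B.set k) y with hu
        have hum : u ∈ win T B.set k := ret_mem hrec hyk
        have htu : t u = y := by
          rw [hτ1 k hkR u hum, hε1, zpow_neg, zpow_one, hu]
          simp
        have htiu : t⁻¹ y = u := by rw [← htu]; simp
        rw [htiu, hu, hsec.bas_ret hR hyk, hny, hx]
        exact (ont_bas_nonneg hB0 h1 (by omega) hz).symm
      · have hε1 : ε k = 0 := by
          simp only [hε]
          rw [if_neg (fun h => h0 h.2.1), if_neg (fun h => h1 h.2.2)]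
        have hty : t y = y := by
          rw [hτ1 k hkR y hyk, hε1, zpow_zero]
          rfl
        have htiy : t⁻¹ y = y := by
          conv_lhs => rw [← hty]
          simp
        rw [htiy, ← hzy, hx, ont_bas_neg hR hB0 h0' (by omega) hz,
          ont_bas_neg hR hB0 (by omega) (by rw [abs_le]; constructor <;> omega) hz]
  · -- far from `B`
    have hty : t y = y := by
      by_cases hc2 : ∃ k : ℤ, |k| ≤ 2 * d + 1 ∧ y ∈ win T B.set k
      · obtain ⟨k, hk, hyk⟩ := hc2
        have hkd : ¬ |k| ≤ d := fun h => hc ⟨k, h, hyk⟩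
        have hε1 : ε k = 0 := by
          simp only [hε]
          rw [if_neg (fun h => hkd h.1), if_neg (fun h => hkd h.1)]
        rw [hτ1 k hk y hyk, hε1, zpow_zero]
        rfl
      · exact hτ2 y (fun k hk hyk => hc2 ⟨k, hk, hyk⟩)
    have htiy : t⁻¹ y = y := by
      conv_lhs => rw [← hty]
      simp
    rw [htiy]
    have hyx : y = (pT T ^ n x) x := by rw [hy]; exact hg x
    have hnx := abs_le.1 (hd x)
    by_cases h0 : 0 ≤ n x
    · obtain ⟨m, hm⟩ := Int.eq_ofNat_of_zero_le h0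
      rw [hm, zpow_natCast] at hyx
      rw [hyx]
      refine ont_bas_pow hR x m ?_
      intro i hi0 him hmem
      refine hc ⟨(m : ℤ) - i, by rw [abs_le]; constructor <;> omega, (pT T ^ i) x, hmem, ?_⟩
      rw [← zpow_natCast, ont_zpow_add, hyx, ← zpow_natCast]
      congr 2
      omega
    · obtain ⟨m, hm⟩ : ∃ m : ℕ, n x = -(m : ℤ) := ⟨(-n x).toNat, by omega⟩
      rw [hm] at hyx
      have hxy' : x = (pT T ^ m) y := by
        rw [hyx, ← zpow_natCast, ont_zpow_add, add_neg_cancel, zpow_zero]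
        rfl
      rw [hxy']
      refine (ont_bas_pow hR y m ?_).symm
      intro i hi0 him hmem
      refine hc ⟨-(i : ℤ), by rw [abs_le]; constructor <;> omega, (pT T ^ i) y, hmem, ?_⟩
      rw [← zpow_natCast, ont_zpow_add, neg_add_cancel, zpow_zero]
      rfl

/-- every element of the topological full group is in the image of some `psi` -/
theorem psi_surj [CompactSpace X] [T2Space X] [TotallyDisconnectedSpace X] (S : Sys T x0)
    {g : Equiv.Perm X} (hg : g ∈ FG T) : ∃ (B : Nb x0) (w : PG T B.set), psi S B w = g := by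
  obtain ⟨n, hn, hgn⟩ := mem_FG.1 hg
  obtain ⟨m, hm, hgm⟩ := mem_FG.1 (inv_mem hg)
  -- the displacement is bounded
  obtain ⟨d, hd⟩ : ∃ d : ℤ, ∀ x, |n x| ≤ d := by
    have h1 : IsCompact (Set.range fun x => |n x|) := isCompact_range (continuous_abs.comp hn)
    obtain ⟨d, hd⟩ := h1.bddAbove
    exact ⟨d, fun x => hd ⟨x, rfl⟩⟩
  have hcont : Continuous fun x => n (g⁻¹ x) := by
    have h1 : ∀ x, n (g⁻¹ x) = - m x := by
      intro x
      have h2 : g (g⁻¹ x) = x := by simp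
      have h3 := hgn (g⁻¹ x)
      rw [h2] at h3
      have h4 := hgm x
      rw [h4] at h3
      have h5 : (pT T ^ (n (g⁻¹ x) + m x)) x = x := by
        rw [zpow_add]
        change (pT T ^ n (g⁻¹ x)) ((pT T ^ m x) x) = x
        rw [← h4]
        rw [h4]
        exact h3.symm
      have h6 := S.aper x _ h5
      linarith
    simp_rw [h1]
    exact hm.neg
  obtain ⟨B, _, hB⟩ := exists_small S (⟨Set.univ, isClopen_univ, trivial⟩ : Nb x0) (2 * (2 * d + 1))
    {E | ∃ m : ℤ, |m| ≤ d ∧ E = {x | n (g⁻¹ x) = m}}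
    (by
      have : {E : Set X | ∃ m : ℤ, |m| ≤ d ∧ E = {x | n (g⁻¹ x) = m}} ⊆
          (fun m : ℤ => {x | n (g⁻¹ x) = m}) '' (Set.Icc (-d) d) := by
        rintro E ⟨m, hm, rfl⟩
        exact ⟨m, abs_le.1 hm, rfl⟩
      exact ((Set.finite_Icc _ _).image _).subset this)
    (by
      rintro E ⟨m, _, rfl⟩
      exact (isClopen_discrete {m}).preimage hcont)
  obtain ⟨τ, hτ⟩ := exists_tau_pres S B hgn hd hB
  refine ⟨B, inl τ * inr ⟨(psi S B (inl τ))⁻¹ * g, mul_mem (inv_mem (psi_mem S B _)) hg, hτ⟩, ?_⟩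
  rw [map_mul, psi_inr]
  group

end Pool.Agent.H13.TFG
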