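import Pool.Agent.H13.TFG.Let
import Pool.Agent.H13.TFG.Ont
import Pool.Agent.H13.TFG.Lfn
import Pool.Agent.H13.TFG.RaagLF
import Pool.Agent.H13.TFG.Mini

/-!
# Topological full groups of minimal homeomorphisms
-/

set_option autoImplicit false

namespace Pool.Agent.H13.TFG

variable {X : Type} [TopologicalSpace X]

theorem PG_mem {C : (G : Type) → [Group G] → Prop} (hC : RaagClass C) {T : X ≃ₜ X} {x0 : X}
    (S : Sys T x0) (B : Nb x0) : C (PG T B.set) :=
  sd_mem hC (GR T B.set) (AG T B.set) (GR_smul T B.set) (AG_locallyFinite S B)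

/-- the topological full group is the directed colimit of the groups `PG T B` -/
theorem FG_isColimit [CompactSpace X] [T2Space X] [TotallyDisconnectedSpace X] {T : X ≃ₜ X}
    {x0 : X} (S : Sys T x0) :
    Pool.Agent.H98.FJ.IsColimit (ι := Nb x0) (G := fun B => PG T B.set)
      (fun B B' h => xi S B B' h) (H := FG T)
      (fun B => (psi S B).codRestrict (FG T) (psi_mem S B)) where
  nonempty := ⟨⟨Set.univ, isClopen_univ, trivial⟩⟩
  directed B B' := ⟨⟨B.set ∩ B'.set, B.clopen.inter B'.clopen, B.mem, B'.mem⟩,
    Set.inter_subset_left, Set.inter_subset_right⟩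
  map_id B h w := xi_self S B h w
  map_comp B B' B'' h h' h'' w := xi_comp S B B' B'' h h' h'' w
  compat B B' h w := Subtype.ext (psi_xi S B B' h w)
  surj y := by
    obtain ⟨B, w, h⟩ := psi_surj S y.2
    exact ⟨B, w, Subtype.ext h⟩
  ker B w h := ker S B w (congrArg Subtype.val h)

/-- `T` has a point which is not periodic and lies in the closure of every forward and of every backward orbit (for
instance `T` is a minimal homeomorphism of an infinite compact Hausdorff space), or `T` is minimal. -/
theorem full_mem {C : (G : Type) → [Group G] → Prop} (hC : RaagClass C) [CompactSpace X]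
    [T2Space X] [TotallyDisconnectedSpace X] (T : X ≃ₜ X) (hT : EssMinimal T)
    (H : Subgroup (FullGroup T)) : C H := by
  obtain ⟨x0, S⟩ := sys_of_essMinimal T hT
  have h1 : C (FG T) := hC.colim (Nb x0) (fun B => PG T B.set) _ (FG T) _ (FG_isColimit S)
    (fun B => PG_mem hC S B)
  obtain ⟨φ, hφ⟩ := FG_injective T
  exact hC.of_injective (φ.comp H.subtype) (hφ.comp Subtype.val_injective) h1

end Pool.Agent.H13.TFG
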