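import Pool.Agent.H13.TFG.Ref
import Pool.Agent.H13.TFG.Defs

/-!
# The topological full group as a group of permutations
-/

set_option autoImplicit false

namespace Pool.Agent.H13.TFG

variable {X : Type} [TopologicalSpace X]

/-- the homeomorphism `T` as a permutation -/
abbrev pT (T : X ≃ₜ X) : Equiv.Perm X := T.toEquiv

/-- homeomorphisms as permutations -/
def toPerm (X : Type) [TopologicalSpace X] : (X ≃ₜ X) →* Equiv.Perm X where
  toFun g := g.toEquiv
  map_one' := rfl
  map_mul' _ _ := rfl

/-- the topological full group as a group of permutations -/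
def FG (T : X ≃ₜ X) : Subgroup (Equiv.Perm X) := (FullGroup T).map (toPerm X)

theorem toPerm_zpow (T : X ≃ₜ X) (n : ℤ) : toPerm X (T ^ n) = pT T ^ n := map_zpow (toPerm X) T n

theorem FG_injective (T : X ≃ₜ X) :
    ∃ φ : FullGroup T →* FG T, Function.Injective φ := by
  refine ⟨((toPerm X).comp (FullGroup T).subtype).codRestrict (FG T)
    (fun g => ⟨g.1, g.2, rfl⟩), ?_⟩
  intro g h hgh
  have h1 : (g.1 : X ≃ₜ X).toEquiv = (h.1 : X ≃ₜ X).toEquiv := congrArg Subtype.val hgh
  apply Subtype.ext
  exact Homeomorph.toEquiv_injective h1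

variable {T : X ≃ₜ X}

/-- Proof. (→) by definition and `toPerm_zpow`. (←) `g` is continuous: on the open set `{x | n x = k}` it is `T ^ k`
(continuity at each point). `g` is an open map: `g '' U` is the union over `k` of `T ^ k '' (U ∩ {x | n x = k})`.
So `g` is a homeomorphism (`Equiv.toHomeomorph...`, e.g. `Homeomorph` built with the inverse continuous because `g` is
open), and it is in `FullGroup T`. -/
theorem mem_FG {g : Equiv.Perm X} :
    g ∈ FG T ↔ ∃ n : X → ℤ, Continuous n ∧ ∀ x, g x = (pT T ^ n x) x := by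
  constructor
  · rintro ⟨h, ⟨n, hn, hx⟩, rfl⟩
    refine ⟨n, hn, fun x => ?_⟩
    rw [← toPerm_zpow]
    exact hx x
  · rintro ⟨n, hn, hx⟩
    have hx' : ∀ x, g x = (T ^ n x) x := fun x => by
      rw [hx x, ← toPerm_zpow]
      rfl
    have hcont : Continuous g := by
      rw [continuous_iff_continuousAt]
      intro x
      have h1 : (fun y => (T ^ n x) y) =ᶠ[nhds x] g := by
        have h2 : {y | n y = n x} ∈ nhds x :=
          ((isOpen_discrete {n x}).preimage hn).mem_nhds rfl
        filter_upwards [h2] with y hy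
        have hy' : n y = n x := hy
        rw [hx' y, hy']
      exact ((T ^ n x).continuous.continuousAt).congr h1
    have hopen : IsOpenMap g := by
      intro U hU
      have h1 : g '' U = ⋃ k : ℤ, (T ^ k) '' (U ∩ {x | n x = k}) := by
        ext y
        simp only [Set.mem_image, Set.mem_iUnion]
        constructor
        · rintro ⟨x, hxU, rfl⟩
          exact ⟨n x, x, ⟨hxU, rfl⟩, (hx' x).symm⟩
        · rintro ⟨k, x, ⟨hxU, hk⟩, rfl⟩
          have hk' : n x = k := hk
          exact ⟨x, hxU, by rw [hx' x, hk']⟩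
      rw [h1]
      exact isOpen_iUnion fun k =>
        (T ^ k).isOpenMap _ (hU.inter ((isOpen_discrete {k}).preimage hn))
    refine ⟨g.toHomeomorphOfContinuousOpen hcont hopen, ⟨n, hn, fun x => hx' x⟩, ?_⟩
    ext x
    rfl

/-- Proof: elements of `FG T` come from homeomorphisms. -/
theorem isClopen_image {g : Equiv.Perm X} (hg : g ∈ FG T) {E : Set X} (hE : IsClopen E) :
    IsClopen (g '' E) := by
  obtain ⟨h, -, rfl⟩ := hg
  exact ⟨h.isClosedMap _ hE.1, h.isOpenMap _ hE.2⟩

/-- Proof: as `isClopen_image`, or `pT T ^ k` is in `FG T` (constant `n`). -/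
theorem isClopen_zpow_image (k : ℤ) {E : Set X} (hE : IsClopen E) :
    IsClopen ((pT T ^ k) '' E) := by
  rw [← toPerm_zpow]
  exact ⟨(T ^ k).isClosedMap _ hE.1, (T ^ k).isOpenMap _ hE.2⟩

theorem isClopen_pow_preimage (P : X ≃ₜ X) {E : Set X} (hE : IsClopen E) (n : ℕ) :
    IsClopen {x | (pT P ^ n) x ∈ E} := by
  have h : pT P ^ n = toPerm X (P ^ n) := by
    rw [map_pow]
    rfl
  rw [h]
  exact hE.preimage (P ^ n).continuous

theorem isClopen_hit (P : X ≃ₜ X) {E : Set X} (hE : IsClopen E) (hR : Rec (pT P) E) (n : ℕ) :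
    IsClopen {x | hit (pT P) E x = n} := by
  have h : {x | hit (pT P) E x = n} =
      {x | (pT P ^ n) x ∈ E} ∩ ⋂ i ∈ Finset.range n, {x | (pT P ^ i) x ∈ E}ᶜ := by
    ext x
    simp only [Set.mem_ofPred_eq, Set.mem_inter_iff, Set.mem_iInter, Finset.mem_range,
      Set.mem_compl_iff]
    constructor
    · intro hx
      refine ⟨?_, fun i hi => ?_⟩
      · rw [← hx]
        exact fst_mem hR x
      · exact notMem_of_lt_hit (by omega)
    · rintro ⟨h1, h2⟩
      exact hit_eq h1 h2
  rw [h]
  exact (isClopen_pow_preimage P hE n).inter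
    (isClopen_biInter_finset fun i _ => (isClopen_pow_preimage P hE i).compl)

/-- Proof: `{x | lev (pT T) B x = n}` is the set of `x` with `(pT T)⁻¹ ^ n x ∈ B` and `(pT T)⁻¹ ^ i x ∉ B` for all
`i < n` (`hit_eq`, `notMem_of_lt_hit`, `bas_mem`): a finite intersection of clopen sets. -/
theorem isClopen_lev {B : Set X} (hB : IsClopen B) (hR : Rec (pT T) B) (n : ℕ) :
    IsClopen {x | lev (pT T) B x = n} := by
  exact isClopen_hit T⁻¹ hB hR.inv n

theorem isOpen_bas {B B' : Set X} (hB : IsClopen B) (hR : Rec (pT T) B) (hB' : IsClopen B') :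
    IsOpen {x | bas (pT T) B x ∈ B'} := by
  have h : {x | bas (pT T) B x ∈ B'} =
      ⋃ n : ℕ, {x | lev (pT T) B x = n} ∩ {x | (pT T⁻¹ ^ n) x ∈ B'} := by
    ext x
    simp only [Set.mem_ofPred_eq, Set.mem_iUnion, Set.mem_inter_iff]
    constructor
    · intro hx
      exact ⟨lev (pT T) B x, rfl, hx⟩
    · rintro ⟨n, rfl, hx⟩
      exact hx
  rw [h]
  exact isOpen_iUnion fun n => (isClopen_lev hB hR n).2.inter (isClopen_pow_preimage T⁻¹ hB' n).2

/-- Proof: the set and its complement (`B'` replaced by `B'ᶜ`) are unions over `n` of the open sets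
`{x | lev (pT T) B x = n} ∩ {x | (pT T)⁻¹ ^ n x ∈ B'}`. -/
theorem isClopen_bas {B B' : Set X} (hB : IsClopen B) (hR : Rec (pT T) B) (hB' : IsClopen B') :
    IsClopen {x | bas (pT T) B x ∈ B'} := by
  refine ⟨⟨?_⟩, isOpen_bas hB hR hB'⟩
  exact isOpen_bas hB hR hB'.compl

/-- Proof: `mem_FG` with `n x = hit (pT T) E (T x) + 1` for `x ∈ E` and `0` otherwise. `hit (pT T) E` is locally
constant: `{x | hit (pT T) E x = n}` is a finite intersection of clopen sets (as in `isClopen_lev`). -/
theorem ret_mem_FG {E : Set X} (hE : IsClopen E) (hR : Rec (pT T) E) : ret (pT T) E ∈ FG T := by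
  classical
  rw [mem_FG]
  have h1 : Continuous fun x => (hit (pT T) E x : ℤ) := by
    have h2 : Continuous fun x => hit (pT T) E x := by
      rw [continuous_discrete_rng]
      intro n
      exact (isClopen_hit T hE hR n).2
    exact continuous_of_discreteTopology.comp h2
  refine ⟨fun x => if x ∈ E then (hit (pT T) E (T x) : ℤ) + 1 else 0, ?_, ?_⟩
  · refine continuous_if ?_ ?_ ?_
    · intro a ha
      have h3 : frontier {x | x ∈ E} = ∅ := hE.frontier_eq
      rw [h3] at ha
      exact absurd ha (Set.notMem_empty a)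
    · exact ((h1.comp T.continuous).add continuous_const).continuousOn
    · exact continuousOn_const
  · intro x
    by_cases hx : x ∈ E
    · simp only [hx, if_true]
      rw [ret_of_mem hR hx, fst]
      have h4 : ((hit (pT T) E (T x) : ℤ) + 1) = ((hit (pT T) E (T x) + 1 : ℕ) : ℤ) := by push_cast; rfl
      rw [h4, zpow_natCast, pow_succ]
      rfl
    · simp only [hx, if_false]
      rw [ret_of_notMem hx]
      rfl

end Pool.Agent.H13.TFG
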