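import Pool.Agent.H13.TFG.Sys

/-!
# The maps `psi` and `xi`
-/

set_option autoImplicit false

namespace Pool.Agent.H13.TFG

variable {X : Type} [TopologicalSpace X] {T : X ≃ₜ X} {x0 : X}

theorem VS.rec' (S : Sys T x0) (B : Nb x0) (E : VS T B.set) : Rec (pT T) E.set :=
  E.sec.rec' (B.rec' S)

theorem VS.nonempty (B : Nb x0) (E : VS T B.set) : E.set.Nonempty := by
  obtain ⟨x, hx, _⟩ := E.sec x0 B.mem
  exact ⟨x, hx.1⟩

/-- the map to permutations -/
noncomputable def psi (S : Sys T x0) (B : Nb x0) : PG T B.set →* Equiv.Perm X :=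
  SemidirectProduct.lift
    (raagLift (GR T B.set) (fun E => ret (pT T) E.set)
      (fun E F h => ret_comm (VS.rec' S B E) (VS.rec' S B F) h.2))
    (AG T B.set).subtype
    (by
      intro a
      apply raag_ext
      intro E
      simp only [MonoidHom.comp_apply, MulEquiv.coe_toMonoidHom, raagAct_gen, raagLift_gen,
        MulAut.conj_apply]
      exact a.2.2.ret_image (B.rec' S) E.sec)

@[simp] theorem psi_gen (S : Sys T x0) (B : Nb x0) (E : VS T B.set) :
    psi S B (SemidirectProduct.inl (gen (GR T B.set) E)) = ret (pT T) E.set := by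
  rw [psi, SemidirectProduct.lift_inl, raagLift_gen]

@[simp] theorem psi_inr (S : Sys T x0) (B : Nb x0) (a : AG T B.set) :
    psi S B (SemidirectProduct.inr a) = a.1 := by
  rw [psi, SemidirectProduct.lift_inr]
  rfl

theorem pg_ext {G : Type*} [Group G] {B : Set X} {f g : PG T B →* G}
    (h1 : ∀ E, f (SemidirectProduct.inl (gen (GR T B) E)) = g (SemidirectProduct.inl (gen (GR T B) E)))
    (h2 : ∀ a, f (SemidirectProduct.inr a) = g (SemidirectProduct.inr a)) : f = g := by
  apply SemidirectProduct.hom_ext
  · exact raag_ext h1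
  · exact MonoidHom.ext h2

theorem psi_mem (S : Sys T x0) (B : Nb x0) (w : PG T B.set) : psi S B w ∈ FG T := by
  have h : (psi S B).range ≤ FG T := by
    have h1 : psi S B = (FG T).subtype.comp (SemidirectProduct.lift
        (raagLift (GR T B.set) (fun E => (⟨ret (pT T) E.set, ret_mem_FG E.clopen (VS.rec' S B E)⟩ : FG T))
          (fun E F h => Subtype.ext (ret_comm (VS.rec' S B E) (VS.rec' S B F) h.2)))
        (Subgroup.inclusion (fun a ha => ha.1 : AG T B.set ≤ FG T))
        (by
          intro a
          apply raag_ext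
          intro E
          apply Subtype.ext
          simp only [MonoidHom.comp_apply, MulEquiv.coe_toMonoidHom, raagAct_gen, raagLift_gen,
            MulAut.conj_apply]
          exact a.2.2.ret_image (B.rec' S) E.sec)) := by
      apply pg_ext
      · intro E
        simp
      · intro a
        simp
    rw [h1]
    rintro _ ⟨w, rfl⟩
    exact Subtype.property _
  exact h ⟨w, rfl⟩

/-- the part of a section which is a section for the smaller set -/
noncomputable def cutS (S : Sys T x0) (B B' : Nb x0) (h : B ≤ B') (E : VS T B.set) : VS T B'.set :=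
  ⟨cut (pT T) B.set B'.set E.set,
    E.clopen.inter (isClopen_bas B.clopen (B.rec' S) B'.clopen),
    isSec_cut (B.rec' S) (B'.rec' S) h E.sec⟩

/-- `ret E = ret E' * rho E` -/
noncomputable def rho (S : Sys T x0) (B B' : Nb x0) (h : B ≤ B') (E : VS T B.set) : AG T B'.set :=
  ⟨(ret (pT T) (cut (pT T) B.set B'.set E.set))⁻¹ * ret (pT T) E.set,
    mul_mem (inv_mem (ret_mem_FG (cutS S B B' h E).clopen (VS.rec' S B' (cutS S B B' h E))))
      (ret_mem_FG E.clopen (VS.rec' S B E)),
    pres_rho (B.rec' S) (B'.rec' S) h E.sec⟩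

/-- the inclusion of the groups which preserve blocks -/
def incl (S : Sys T x0) (B B' : Nb x0) (h : B ≤ B') : AG T B.set →* AG T B'.set :=
  Subgroup.inclusion (fun _ ha => ⟨ha.1, ha.2.mono (B.rec' S) (B'.rec' S) h⟩)

theorem incl_val (S : Sys T x0) (B B' : Nb x0) (h : B ≤ B') (a : AG T B.set) :
    (incl S B B' h a).1 = a.1 := rfl

/-- sections which are disjoint from `E` are fixed by `rho E` -/
theorem rho_smul_cutS (S : Sys T x0) (B B' : Nb x0) (h : B ≤ B') (E F : VS T B.set)
    (hEF : Disjoint E.set F.set) : rho S B B' h E • cutS S B B' h F = cutS S B B' h F := by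
  apply VS.ext
  change (fun x => ((ret (pT T) (cut (pT T) B.set B'.set E.set))⁻¹ * ret (pT T) E.set) x) ''
    (cut (pT T) B.set B'.set F.set) = cut (pT T) B.set B'.set F.set
  ext y
  constructor
  · rintro ⟨x, hx, rfl⟩
    have h1 : x ∉ E.set := fun h' => Set.disjoint_left.1 hEF h' hx.1
    have h2 : x ∉ cut (pT T) B.set B'.set E.set := fun h' => h1 h'.1
    change (ret (pT T) (cut (pT T) B.set B'.set E.set))⁻¹ (ret (pT T) E.set x) ∈ _
    rw [ret_of_notMem h1, ret_inv_of_notMem h2]
    exact hx
  · intro hy
    have h1 : y ∉ E.set := fun h' => Set.disjoint_left.1 hEF h' hy.1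
    have h2 : y ∉ cut (pT T) B.set B'.set E.set := fun h' => h1 h'.1
    refine ⟨y, hy, ?_⟩
    change (ret (pT T) (cut (pT T) B.set B'.set E.set))⁻¹ (ret (pT T) E.set y) = y
    rw [ret_of_notMem h1, ret_inv_of_notMem h2]

theorem rho_comm (S : Sys T x0) (B B' : Nb x0) (h : B ≤ B') (E F : VS T B.set)
    (hEF : Disjoint E.set F.set) :
    rho S B B' h E * rho S B B' h F = rho S B B' h F * rho S B B' h E := by
  apply Subtype.ext
  change (ret (pT T) (cut (pT T) B.set B'.set E.set))⁻¹ * ret (pT T) E.set *
      ((ret (pT T) (cut (pT T) B.set B'.set F.set))⁻¹ * ret (pT T) F.set) =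
    (ret (pT T) (cut (pT T) B.set B'.set F.set))⁻¹ * ret (pT T) F.set *
      ((ret (pT T) (cut (pT T) B.set B'.set E.set))⁻¹ * ret (pT T) E.set)
  have hE := VS.rec' S B E
  have hF := VS.rec' S B F
  have hE' : Rec (pT T) (cut (pT T) B.set B'.set E.set) := VS.rec' S B' (cutS S B B' h E)
  have hF' : Rec (pT T) (cut (pT T) B.set B'.set F.set) := VS.rec' S B' (cutS S B B' h F)
  have c1 : Commute (ret (pT T) E.set) (ret (pT T) F.set) := ret_comm hE hF hEF
  have c2 : Commute (ret (pT T) (cut (pT T) B.set B'.set E.set)) (ret (pT T) F.set) :=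
    ret_comm hE' hF (hEF.mono_left cut_subset)
  have c3 : Commute (ret (pT T) E.set) (ret (pT T) (cut (pT T) B.set B'.set F.set)) :=
    ret_comm hE hF' (hEF.mono_right cut_subset)
  have c4 : Commute (ret (pT T) (cut (pT T) B.set B'.set E.set)) (ret (pT T) (cut (pT T) B.set B'.set F.set)) :=
    ret_comm hE' hF' ((hEF.mono_left cut_subset).mono_right cut_subset)
  exact ((c4.inv_left.inv_right.mul_right c2.inv_left).mul_left (c3.inv_right.mul_right c1)).eq

theorem cutS_adj (S : Sys T x0) (B B' : Nb x0) (h : B ≤ B') (E F : VS T B.set)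
    (hEF : Disjoint E.set F.set) : (GR T B'.set).Adj (cutS S B B' h E) (cutS S B B' h F) := by
  have h1 : Disjoint (cutS S B B' h E).set (cutS S B B' h F).set :=
    (hEF.mono_left cut_subset).mono_right cut_subset
  refine ⟨?_, h1⟩
  intro h2
  rw [h2] at h1
  obtain ⟨x, hx⟩ := VS.nonempty B' (cutS S B B' h F)
  exact Set.disjoint_left.1 h1 hx hx

/-- a section in the group of the smaller set -/
noncomputable def xiV (S : Sys T x0) (B B' : Nb x0) (h : B ≤ B') (E : VS T B.set) : PG T B'.set :=
  SemidirectProduct.inl (gen (GR T B'.set) (cutS S B B' h E)) *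
    SemidirectProduct.inr (rho S B B' h E)

theorem xiV_comm (S : Sys T x0) (B B' : Nb x0) (h : B ≤ B') (E F : VS T B.set)
    (hEF : (GR T B.set).Adj E F) :
    xiV S B B' h E * xiV S B B' h F = xiV S B B' h F * xiV S B B' h E := by
  have hd := hEF.2
  apply SemidirectProduct.ext
  · simp only [xiV, SemidirectProduct.mul_left, SemidirectProduct.left_inl,
      SemidirectProduct.left_inr, SemidirectProduct.right_inl, SemidirectProduct.mul_right,
      SemidirectProduct.right_inr, map_one, mul_one, one_mul, raagAct_gen]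
    rw [rho_smul_cutS S B B' h E F hd, rho_smul_cutS S B B' h F E hd.symm]
    exact gen_comm (cutS_adj S B B' h E F hd)
  · simp only [xiV, SemidirectProduct.right_inl, SemidirectProduct.mul_right,
      SemidirectProduct.right_inr, one_mul]
    exact rho_comm S B B' h E F hd

theorem cutS_smul (S : Sys T x0) (B B' : Nb x0) (h : B ≤ B') (a : AG T B.set) (E : VS T B.set) :
    cutS S B B' h (a • E) = incl S B B' h a • cutS S B B' h E := by
  apply VS.ext
  exact cut_image a.2.2

theorem rho_smul (S : Sys T x0) (B B' : Nb x0) (h : B ≤ B') (a : AG T B.set) (E : VS T B.set) :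
    rho S B B' h (a • E) = incl S B B' h a * rho S B B' h E * (incl S B B' h a)⁻¹ := by
  apply Subtype.ext
  change (ret (pT T) (cut (pT T) B.set B'.set (a.1 '' E.set)))⁻¹ * ret (pT T) (a.1 '' E.set) =
    a.1 * ((ret (pT T) (cut (pT T) B.set B'.set E.set))⁻¹ * ret (pT T) E.set) * a.1⁻¹
  have key : ret (pT T) (a.1 '' cut (pT T) B.set B'.set E.set) =
      a.1 * ret (pT T) (cut (pT T) B.set B'.set E.set) * a.1⁻¹ :=
    (incl S B B' h a).2.2.ret_image (B'.rec' S) (cutS S B B' h E).sec
  rw [cut_image a.2.2, a.2.2.ret_image (B.rec' S) E.sec, key]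
  group

/-- the change of `B` -/
noncomputable def xi (S : Sys T x0) (B B' : Nb x0) (h : B ≤ B') : PG T B.set →* PG T B'.set :=
  SemidirectProduct.lift
    (raagLift (GR T B.set) (xiV S B B' h) (xiV_comm S B B' h))
    (SemidirectProduct.inr.comp (incl S B B' h))
    (by
      intro a
      apply raag_ext
      intro E
      simp only [MonoidHom.comp_apply, MulEquiv.coe_toMonoidHom, raagAct_gen, raagLift_gen,
        MulAut.conj_apply]
      rw [xiV, xiV, cutS_smul, rho_smul]
      rw [← raagAct_gen (GR T B'.set) (AG T B'.set) (GR_smul T B'.set),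
        SemidirectProduct.inl_aut, map_mul, map_mul, map_inv]
      group)

@[simp] theorem xi_gen (S : Sys T x0) (B B' : Nb x0) (h : B ≤ B') (E : VS T B.set) :
    xi S B B' h (SemidirectProduct.inl (gen (GR T B.set) E)) =
      SemidirectProduct.inl (gen (GR T B'.set) (cutS S B B' h E)) *
        SemidirectProduct.inr (rho S B B' h E) := by
  rw [xi, SemidirectProduct.lift_inl, raagLift_gen]
  rfl

@[simp] theorem xi_inr (S : Sys T x0) (B B' : Nb x0) (h : B ≤ B') (a : AG T B.set) :
    xi S B B' h (SemidirectProduct.inr a) = SemidirectProduct.inr (incl S B B' h a) := by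
  rw [xi, SemidirectProduct.lift_inr]
  rfl

theorem psi_xi (S : Sys T x0) (B B' : Nb x0) (h : B ≤ B') (w : PG T B.set) :
    psi S B' (xi S B B' h w) = psi S B w := by
  have : (psi S B').comp (xi S B B' h) = psi S B := by
    apply pg_ext
    · intro E
      simp only [MonoidHom.comp_apply, xi_gen, map_mul, psi_gen, psi_inr]
      change ret (pT T) (cut (pT T) B.set B'.set E.set) *
        ((ret (pT T) (cut (pT T) B.set B'.set E.set))⁻¹ * ret (pT T) E.set) = _
      group
    · intro a
      simp [incl_val]
  exact DFunLike.congr_fun this w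

theorem xi_self (S : Sys T x0) (B : Nb x0) (h : B ≤ B) (w : PG T B.set) : xi S B B h w = w := by
  have : xi S B B h = MonoidHom.id _ := by
    apply pg_ext
    · intro E
      simp only [xi_gen, MonoidHom.id_apply]
      have h1 : cutS S B B h E = E := VS.ext (cut_self (B.rec' S))
      have h2 : rho S B B h E = 1 := by
        apply Subtype.ext
        change (ret (pT T) (cut (pT T) B.set B.set E.set))⁻¹ * ret (pT T) E.set = 1
        rw [cut_self (B.rec' S)]
        group
      rw [h1, h2, map_one, mul_one]
    · intro a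
      simp only [xi_inr, MonoidHom.id_apply]
      rfl
  exact DFunLike.congr_fun this w

theorem xi_comp (S : Sys T x0) (B B' B'' : Nb x0) (h : B ≤ B') (h' : B' ≤ B'') (h'' : B ≤ B'')
    (w : PG T B.set) : xi S B' B'' h' (xi S B B' h w) = xi S B B'' h'' w := by
  have : (xi S B' B'' h').comp (xi S B B' h) = xi S B B'' h'' := by
    apply pg_ext
    · intro E
      simp only [MonoidHom.comp_apply, map_mul, xi_gen, xi_inr]
      have h1 : cutS S B' B'' h' (cutS S B B' h E) = cutS S B B'' h'' E :=
        VS.ext (cut_cut (B.rec' S) (B'.rec' S) h h')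
      have h2 : rho S B' B'' h' (cutS S B B' h E) * incl S B' B'' h' (rho S B B' h E) =
          rho S B B'' h'' E := by
        apply Subtype.ext
        change (ret (pT T) (cut (pT T) B'.set B''.set (cut (pT T) B.set B'.set E.set)))⁻¹ *
            ret (pT T) (cut (pT T) B.set B'.set E.set) *
            ((ret (pT T) (cut (pT T) B.set B'.set E.set))⁻¹ * ret (pT T) E.set) =
          (ret (pT T) (cut (pT T) B.set B''.set E.set))⁻¹ * ret (pT T) E.set
        rw [cut_cut (B.rec' S) (B'.rec' S) h h']
        group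
      rw [h1, mul_assoc, ← map_mul, h2]
    · intro a
      simp only [MonoidHom.comp_apply, xi_inr]
      rfl
  exact DFunLike.congr_fun this w

end Pool.Agent.H13.TFG
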