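import Pool.Agent.H13.TFG.LetA

/-!
# Multiplication by the inverse of a generator
-/

set_option autoImplicit false

namespace Pool.Agent.H13.TFG

variable {X : Type} [TopologicalSpace X] {T : X ≃ₜ X} {x0 : X}

open SemidirectProduct (inl inr)

/-- Proof: as `good_gen`: `xi (inl (gen E)⁻¹) * (inl ζ * inr b) = inl (ρ⁻¹ ((gen E')⁻¹ * ζ)) * inr (ρ⁻¹ * b)` and
`ρ⁻¹ = (ret E)⁻¹ * ret E'` (`ret_inv_win`). -/
theorem good_gen_inv (S : Sys T x0) (B : Nb x0) (E : VS T B.set) : Good S B (gen _ E)⁻¹ := by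
  obtain ⟨N, hN⟩ := good_data S B E
  refine ⟨{E.set, B.set}, by simp, ?_, 2 * N + 2, by positivity, ?_⟩
  · rintro F (rfl | rfl)
    · exact E.clopen
    · exact B.clopen
  · intro B' h r R hr hR hS ζ hζ b
    obtain ⟨g1, -, g3⟩ := hN B' h R (by linarith) hS
    refine ⟨raagAct (GR T B'.set) (AG T B'.set) (GR_smul T B'.set) (rho S B B' h E)⁻¹
      ((gen (GR T B'.set) (cutS S B B' h E))⁻¹ * ζ), ?_, (rho S B B' h E)⁻¹ * b, ?_⟩
    · refine act_mem B' _ (r := r + N) ?_ ?_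
      · intro k hk
        obtain ⟨k', hk', e⟩ := g3 k (by linarith)
        exact ⟨k', by linarith, e⟩
      · exact mul_mem (inv_mem (g1 r hr)) (ZW_mono (by linarith) hζ)
    · rw [map_inv, map_inv, xi_gen, SemidirectProduct.inl_aut, map_mul, map_mul, inv_inv, map_inv,
        map_inv]
      group

end Pool.Agent.H13.TFG
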