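import Pool.Agent.H13.TFG.LetA
import Pool.Agent.H13.TFG.LetB

/-!
# The kernel
-/

set_option autoImplicit false

namespace Pool.Agent.H13.TFG

variable {X : Type} [TopologicalSpace X] {T : X ≃ₜ X} {x0 : X}

open SemidirectProduct (inl inr)

theorem good_one (S : Sys T x0) (B : Nb x0) : Good S B 1 := by
  refine ⟨∅, Set.finite_empty, by simp, 0, le_rfl, ?_⟩
  intro B' h r R _ _ _ ζ hζ b
  refine ⟨ζ, by simpa using hζ, b, ?_⟩
  simp

theorem good_mul (S : Sys T x0) (B : Nb x0) {ρ σ : RAAG (GR T B.set)} (hρ : Good S B ρ)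
    (hσ : Good S B σ) : Good S B (ρ * σ) := by
  obtain ⟨L1, f1, c1, M1, p1, g1⟩ := hρ
  obtain ⟨L2, f2, c2, M2, p2, g2⟩ := hσ
  refine ⟨L1 ∪ L2, f1.union f2, ?_, M2 + M1, by omega, ?_⟩
  · rintro F (hF | hF)
    · exact c1 F hF
    · exact c2 F hF
  · intro B' h r R hr hR hS ζ hζ b
    obtain ⟨ζ1, hζ1, b1, e1⟩ := g2 B' h r R hr (by omega)
      (hS.mono le_rfl Set.subset_union_right) ζ hζ b
    obtain ⟨ζ2, hζ2, b2, e2⟩ := g1 B' h (r + M2) R (by omega) (by omega)
      (hS.mono le_rfl Set.subset_union_left) ζ1 hζ1 b1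
    refine ⟨ζ2, by rwa [← add_assoc], b2, ?_⟩
    rw [← e2, ← e1, map_mul, map_mul, mul_assoc]

theorem good (S : Sys T x0) (B : Nb x0) (ρ : RAAG (GR T B.set)) : Good S B ρ := by
  have h : ∀ w : FreeGroup (VS T B.set), Good S B (PresentedGroup.mk (raagRels (GR T B.set)) w) := by
    intro w
    refine FreeGroup.induction_on w ?_ ?_ ?_ ?_
    · rw [map_one]
      exact good_one S B
    · intro E
      exact good_gen S B E
    · intro E _
      rw [map_inv]
      exact good_gen_inv S B E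
    · intro a b ha hb
      rw [map_mul]
      exact good_mul S B ha hb
  obtain ⟨w, rfl⟩ := PresentedGroup.mk_surjective _ ρ
  exact h w

/-- the kernel: an element which acts trivially dies at a later stage -/
theorem ker [CompactSpace X] [T2Space X] [TotallyDisconnectedSpace X] (S : Sys T x0) (B : Nb x0)
    (w : PG T B.set) (hw : psi S B w = 1) : ∃ (B' : Nb x0) (h : B ≤ B'), xi S B B' h w = 1 := by
  obtain ⟨L, f, c, M, p, g⟩ := good S B w.left
  obtain ⟨B', h, hs⟩ := exists_small S B (2 * M) L f c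
  refine ⟨B', h, ?_⟩
  obtain ⟨ζ, hζ, b, e⟩ := g B' h 0 M le_rfl (by omega) hs 1 (one_mem _) 1
  have e1 : xi S B B' h w = inl ζ * inr (b * incl S B B' h w.right) := by
    conv_lhs => rw [← SemidirectProduct.inl_left_mul_inr_right w]
    rw [map_mul, xi_inr]
    rw [map_one, map_one, mul_one, mul_one] at e
    rw [e, map_mul, mul_assoc]
  have e2 : psi S B' (xi S B B' h w) = 1 := by rw [psi_xi, hw]
  set a := b * incl S B B' h w.right with ha
  rw [e1, map_mul, psi_inr] at e2
  have e3 : psi S B' (inl ζ) = a.1⁻¹ := by rw [eq_inv_iff_mul_eq_one]; exact e2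
  have e4 : ζ = 1 := by
    refine zeta_eq_one S B' (hs.mono le_rfl (Set.empty_subset _)) (R := M) ?_ ?_
    · simpa using hζ
    · rw [e3]
      exact a.2.2.inv
  have e5 : a = 1 := by
    rw [e4, map_one, map_one, one_mul] at e2
    exact Subtype.ext e2
  rw [e1, e4, e5, map_one, map_one, mul_one]

end Pool.Agent.H13.TFG
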