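import Pool.Agent.H13.TFG.LetDef

/-!
# Multiplication by a generator
-/

set_option autoImplicit false

namespace Pool.Agent.H13.TFG

variable {X : Type} [TopologicalSpace X] {T : X ≃ₜ X} {x0 : X}

open SemidirectProduct (inl inr)

/-- the action of an element which moves windows to windows -/
theorem act_mem (B' : Nb x0) (ρ : AG T B'.set) {r s : ℤ}
    (H : ∀ k : ℤ, |k| ≤ r → ∃ k' : ℤ, |k'| ≤ s ∧ ρ.1 '' win T B'.set k = win T B'.set k')
    {ζ : RAAG (GR T B'.set)} (hζ : ζ ∈ ZW (T := T) B' r) :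
    raagAct (GR T B'.set) (AG T B'.set) (GR_smul T B'.set) ρ ζ ∈ ZW (T := T) B' s := by
  have h1 : ZW (T := T) B' r ≤ (ZW (T := T) B' s).comap
      (raagAct (GR T B'.set) (AG T B'.set) (GR_smul T B'.set) ρ).toMonoidHom := by
    rw [ZW, Subgroup.closure_le]
    rintro g ⟨F, k, hk, hF, rfl⟩
    obtain ⟨k', hk', he⟩ := H k hk
    change raagAct (GR T B'.set) (AG T B'.set) (GR_smul T B'.set) ρ (gen (GR T B'.set) F) ∈
      ZW (T := T) B' s
    rw [raagAct_gen]
    apply Subgroup.subset_closure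
    refine ⟨ρ • F, k', hk', ?_, rfl⟩
    rw [smul_set, hF, he]
  exact h1 hζ

/-- the first return map of a window and its inverse fix all windows -/
theorem ret_win_self {B : Set X} {R : ℤ} (h : Small T B (2 * R) ∅) {E : Set X}
    (hE : Rec (pT T) E) {k0 k : ℤ} (he : E = win T B k0) (hk0 : |k0| ≤ R) (hk : |k| ≤ R) :
    ret (pT T) E '' win T B k = win T B k ∧ ⇑(ret (pT T) E)⁻¹ '' win T B k = win T B k := by
  have h1 : ret (pT T) E '' win T B k = win T B k := by
    by_cases hkk : k0 = k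
    · subst hkk
      rw [← he]
      exact Pool.Agent.H13.TFG.ret_image hE
    · apply ret_image_of_disjoint
      rw [he]
      exact win_disjoint h hk0 hk hkk
  refine ⟨h1, ?_⟩
  conv_lhs => rw [← h1]
  rw [Set.image_image]
  simp

/-- the data for one section -/
theorem good_data (S : Sys T x0) (B : Nb x0) (E : VS T B.set) : ∃ N : ℕ,
    ∀ (B' : Nb x0) (h : B ≤ B') (R : ℤ), 2 * (N : ℤ) + 2 ≤ R →
      Small T B'.set (2 * R) {E.set, B.set} →
      (∀ s : ℤ, 0 ≤ s → gen (GR T B'.set) (cutS S B B' h E) ∈ ZW (T := T) B' (s + N)) ∧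
      (∀ k : ℤ, |k| + N + 1 ≤ R → ∃ k' : ℤ, |k'| ≤ |k| + N + 1 ∧
        (rho S B B' h E).1 '' win T B'.set k = win T B'.set k') ∧
      (∀ k : ℤ, |k| + N + 1 ≤ R → ∃ k' : ℤ, |k'| ≤ |k| + N + 1 ∧
        (rho S B B' h E)⁻¹.1 '' win T B'.set k = win T B'.set k') := by
  obtain ⟨N1, hN1⟩ := S.bdd E.set E.clopen (VS.rec' S B E)
  obtain ⟨N2, hN2⟩ := S.bdd B.set B.clopen (B.rec' S)
  refine ⟨max N1 N2, ?_⟩
  intro B' h R hR hS
  have c1 : ∀ x, (hit (pT T) E.set x : ℤ) ≤ ((max N1 N2 : ℕ) : ℤ) := fun x => by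
    exact_mod_cast (hN1 x).1.trans (le_max_left _ _)
  have c2 : ∀ x, (lev (pT T) E.set x : ℤ) ≤ ((max N1 N2 : ℕ) : ℤ) := fun x => by
    exact_mod_cast (hN1 x).2.trans (le_max_left _ _)
  have c3 : ∀ x, (lev (pT T) B.set x : ℤ) ≤ ((max N1 N2 : ℕ) : ℤ) := fun x => by
    exact_mod_cast (hN2 x).2.trans (le_max_right _ _)
  generalize max N1 N2 = N at c1 c2 c3 hR
  obtain ⟨k0, hk0, he⟩ := cut_eq_win S B B' h E hS c3 (by linarith)
  have hE := VS.rec' S B E
  have hE' : Rec (pT T) (cut (pT T) B.set B'.set E.set) := VS.rec' S B' (cutS S B B' h E)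
  have hS1 : Small T B'.set (2 * R) {E.set} := hS.mono le_rfl (by simp)
  have hS2 : Small T B'.set (2 * R) ∅ := hS.mono le_rfl (Set.empty_subset _)
  refine ⟨fun s hs => ?_, fun k hk => ?_, fun k hk => ?_⟩
  · apply Subgroup.subset_closure
    exact ⟨_, k0, by linarith, he, rfl⟩
  · obtain ⟨k', hk', e1⟩ := ret_win S B' hE hS1 c1 (k := k) (by linarith [abs_nonneg k])
    refine ⟨k', hk', ?_⟩
    have e2 := (ret_win_self hS2 hE' he (by linarith) (hk'.trans hk)).2
    change (fun x => (ret (pT T) (cut (pT T) B.set B'.set E.set))⁻¹ (ret (pT T) E.set x)) ''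
      win T B'.set k = _
    rw [← Set.image_image, e1, e2]
  · obtain ⟨k', hk', e1⟩ := ret_inv_win S B' hE hS1 c2 (k := k) (by linarith [abs_nonneg k])
    refine ⟨k', hk', ?_⟩
    have e2 := (ret_win_self hS2 hE' he (k := k) (by linarith) (by linarith)).1
    have e3 : (rho S B B' h E)⁻¹.1 =
        (ret (pT T) E.set)⁻¹ * ret (pT T) (cut (pT T) B.set B'.set E.set) := by
      change ((ret (pT T) (cut (pT T) B.set B'.set E.set))⁻¹ * ret (pT T) E.set)⁻¹ = _
      rw [mul_inv_rev, inv_inv]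
    rw [e3]
    change (fun x => (ret (pT T) E.set)⁻¹ (ret (pT T) (cut (pT T) B.set B'.set E.set) x)) ''
      win T B'.set k = _
    rw [← Set.image_image, e2, e1]

/-- Proof. Take `L = {E.set, B.set}`, `N` with `hit`, `lev` of `E.set` and of `B.set` at most `N` (`S.bdd`; a section
is not empty, `VS.nonempty`), `M = 2 * N + 2`. In the semidirect product
`xi (inl (gen E)) * (inl ζ * inr b) = inl (gen E' * ρ(ζ)) * inr (ρ * b)` with `E' = cutS S B B' h E`,
`ρ = rho S B B' h E` acting by `raagAct`. `E'.set = win T B' k`, `|k| ≤ N` (`cut_eq_win`), so `gen E' ∈ ZW B' (r + M)`.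
`ρ(ζ) ∈ ZW B' (r + N + 1)`: closure induction; for `|k| ≤ r` the permutation `ρ = (ret E')⁻¹ * ret E` maps
`win T B' k` onto `win T B' k'`, `|k'| ≤ |k| + N + 1`: `ret E` does (`ret_win`), and `(ret E')⁻¹` maps every window to
itself, because `E'` is a window (`ret_image`, `ret_image_of_disjoint`, `win_disjoint`). `ZW` is monotone in `r`. -/
theorem good_gen (S : Sys T x0) (B : Nb x0) (E : VS T B.set) : Good S B (gen _ E) := by
  obtain ⟨N, hN⟩ := good_data S B E
  refine ⟨{E.set, B.set}, by simp, ?_, 2 * N + 2, by positivity, ?_⟩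
  · rintro F (rfl | rfl)
    · exact E.clopen
    · exact B.clopen
  · intro B' h r R hr hR hS ζ hζ b
    obtain ⟨g1, g2, -⟩ := hN B' h R (by linarith) hS
    refine ⟨gen (GR T B'.set) (cutS S B B' h E) *
      raagAct (GR T B'.set) (AG T B'.set) (GR_smul T B'.set) (rho S B B' h E) ζ, ?_,
      rho S B B' h E * b, ?_⟩
    · refine mul_mem (ZW_mono (by linarith) (g1 0 le_rfl)) ?_
      refine act_mem B' _ ?_ hζ
      intro k hk
      obtain ⟨k', hk', e⟩ := g2 k (by linarith)
      exact ⟨k', by linarith, e⟩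
    · rw [xi_gen, map_mul, map_mul, SemidirectProduct.inl_aut, map_inv]
      group

end Pool.Agent.H13.TFG
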