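import Pool.Agent.H13.TFG.Zet

/-!
# Multiplication by a letter
-/

set_option autoImplicit false

namespace Pool.Agent.H13.TFG

variable {X : Type} [TopologicalSpace X] {T : X ≃ₜ X} {x0 : X}

open SemidirectProduct (inl inr)

/-- In all sufficiently small `B'` multiplication by the image of `ρ` keeps the elements `inl ζ * inr b` with `ζ` a
product of generators which belong to windows. -/
def Good (S : Sys T x0) (B : Nb x0) (ρ : RAAG (GR T B.set)) : Prop :=
  ∃ L : Set (Set X), L.Finite ∧ (∀ F ∈ L, IsClopen F) ∧ ∃ M : ℤ, 0 ≤ M ∧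
    ∀ (B' : Nb x0) (h : B ≤ B') (r R : ℤ), 0 ≤ r → r + M ≤ R → Small T B'.set (2 * R) L →
      ∀ ζ ∈ ZW (T := T) B' r, ∀ b : AG T B'.set, ∃ ζ' ∈ ZW (T := T) B' (r + M), ∃ b' : AG T B'.set,
        xi S B B' h (inl ρ) * (inl ζ * inr b) = inl ζ' * inr b'

theorem ZW_mono {B : Nb x0} {r r' : ℤ} (h : r ≤ r') : ZW (T := T) B r ≤ ZW B r' := by
  apply Subgroup.closure_mono
  rintro g ⟨E, k, hk, hE, rfl⟩
  exact ⟨E, k, hk.trans h, hE, rfl⟩

end Pool.Agent.H13.TFG
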