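import Mathlib

/-!
# Visits of an orbit to a set

`T` is a permutation of `X`, `E` a set which every orbit visits infinitely often in both directions (`Rec T E`).
`hit T E x` is the number of steps until the orbit of `x` is in `E` (0 if `x ∈ E`), `fst T E x` the point reached,
`lev T E x` the number of steps since the last visit (0 if `x ∈ E`), `bas T E x` the last visited point.
-/

set_option autoImplicit false

namespace Pool.Agent.H13.TFG

variable {X : Type}

/-- `T ^ n x` is in `E` for some `n ≥ 0` and for some `n ≤ 0`, for every `x` -/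
def Rec (T : Equiv.Perm X) (E : Set X) : Prop :=
  (∀ x, ∃ n : ℕ, (T ^ n) x ∈ E) ∧ (∀ x, ∃ n : ℕ, (T⁻¹ ^ n) x ∈ E)

/-- time of the first visit to `E` -/
noncomputable def hit (T : Equiv.Perm X) (E : Set X) (x : X) : ℕ := sInf {n : ℕ | (T ^ n) x ∈ E}

/-- the first visited point of `E` -/
noncomputable def fst (T : Equiv.Perm X) (E : Set X) (x : X) : X := (T ^ hit T E x) x

/-- time since the last visit to `E` -/
noncomputable def lev (T : Equiv.Perm X) (E : Set X) (x : X) : ℕ := hit T⁻¹ E x

/-- the last visited point of `E` -/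
noncomputable def bas (T : Equiv.Perm X) (E : Set X) (x : X) : X := fst T⁻¹ E x

variable {T : Equiv.Perm X} {E : Set X}

theorem Rec.inv (h : Rec T E) : Rec T⁻¹ E := ⟨h.2, by simpa using h.1⟩

theorem fst_mem (h : Rec T E) (x : X) : fst T E x ∈ E :=
  Nat.sInf_mem (s := {n : ℕ | (T ^ n) x ∈ E}) (h.1 x)

theorem notMem_of_lt_hit {x : X} {n : ℕ} (h : n < hit T E x) : (T ^ n) x ∉ E :=
  fun h' => Nat.notMem_of_lt_sInf h h'

/-- characterisation of the hitting time -/
theorem hit_eq {x : X} {n : ℕ} (h1 : (T ^ n) x ∈ E) (h2 : ∀ i < n, (T ^ i) x ∉ E) : hit T E x = n := by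
  apply le_antisymm
  · exact Nat.sInf_le h1
  · by_contra h
    push Not at h
    exact h2 _ h (Nat.sInf_mem (s := {n : ℕ | (T ^ n) x ∈ E}) ⟨n, h1⟩)

theorem fst_eq {x : X} {n : ℕ} (h1 : (T ^ n) x ∈ E) (h2 : ∀ i < n, (T ^ i) x ∉ E) :
    fst T E x = (T ^ n) x := by
  rw [fst, hit_eq h1 h2]

theorem hit_of_mem {x : X} (h : x ∈ E) : hit T E x = 0 := hit_eq (by simpa using h) (by simp)

theorem fst_of_mem {x : X} (h : x ∈ E) : fst T E x = x := by rw [fst, hit_of_mem h]; rfl

theorem hit_of_notMem (hE : Rec T E) {x : X} (h : x ∉ E) : hit T E x = hit T E (T x) + 1 := by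
  apply hit_eq
  · rw [pow_succ]
    exact fst_mem hE (T x)
  · intro i hi
    rcases Nat.eq_zero_or_pos i with rfl | hi0
    · simpa using h
    · obtain ⟨j, rfl⟩ : ∃ j, i = j + 1 := ⟨i - 1, by omega⟩
      rw [pow_succ]
      exact notMem_of_lt_hit (x := T x) (by omega)

theorem fst_of_notMem (hE : Rec T E) {x : X} (h : x ∉ E) : fst T E x = fst T E (T x) := by
  rw [fst, hit_of_notMem hE h, pow_succ]
  rfl

theorem lev_of_mem {x : X} (h : x ∈ E) : lev T E x = 0 := hit_of_mem h

theorem bas_of_mem {x : X} (h : x ∈ E) : bas T E x = x := fst_of_mem h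

theorem bas_mem (hE : Rec T E) (x : X) : bas T E x ∈ E := fst_mem hE.inv x

theorem bas_apply (hE : Rec T E) {x : X} (h : T x ∉ E) : bas T E (T x) = bas T E x := by
  have := fst_of_notMem hE.inv (x := T x) h
  simpa [bas] using this

theorem lev_apply (hE : Rec T E) {x : X} (h : T x ∉ E) : lev T E (T x) = lev T E x + 1 := by
  have := hit_of_notMem hE.inv (x := T x) h
  simpa [lev] using this

/-- `x` is reached from its base point in `lev x` steps -/
theorem pow_lev_bas (x : X) : (T ^ lev T E x) (bas T E x) = x := by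
  rw [bas, fst, lev, inv_pow]
  exact (T ^ hit T⁻¹ E x).apply_symm_apply x

/-- no visit strictly between the base point and `x` -/
theorem notMem_of_pos_le_lev {x : X} {i : ℕ} (h0 : 0 < i) (h : i ≤ lev T E x) :
    (T ^ i) (bas T E x) ∉ E := by
  have h1 : (T⁻¹ ^ (lev T E x - i)) x ∉ E :=
    notMem_of_lt_hit (T := T⁻¹) (x := x) (show lev T E x - i < lev T E x by omega)
  have h2 : (T⁻¹ ^ (lev T E x - i)) x = (T ^ i) (bas T E x) := by
    have h4 : (T ^ (lev T E x - i)) ((T ^ i) (bas T E x)) = x := by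
      have h5 : (T ^ (lev T E x - i)) ((T ^ i) (bas T E x)) =
          (T ^ (lev T E x - i + i)) (bas T E x) := by rw [pow_add]; rfl
      rw [h5, show lev T E x - i + i = lev T E x by omega, pow_lev_bas]
    rw [inv_pow, Equiv.Perm.inv_eq_iff_eq]
    exact h4.symm
  rwa [h2] at h1

/-- characterisation of the base point and the level -/
theorem bas_pow {z : X} {n : ℕ} (hz : z ∈ E) (h : ∀ i, 0 < i → i ≤ n → (T ^ i) z ∉ E) :
    bas T E ((T ^ n) z) = z ∧ lev T E ((T ^ n) z) = n := by
  have key : ∀ i ≤ n, (T⁻¹ ^ i) ((T ^ n) z) = (T ^ (n - i)) z := by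
    intro i hi
    have : n = i + (n - i) := by omega
    conv_lhs => rw [this]
    rw [pow_add, inv_pow]
    exact (T ^ i).symm_apply_apply _
  have h1 : hit T⁻¹ E ((T ^ n) z) = n := by
    apply hit_eq
    · rw [key n le_rfl]
      simpa using hz
    · intro i hi
      rw [key i hi.le]
      exact h (n - i) (by omega) (by omega)
  refine ⟨?_, h1⟩
  rw [bas, fst, h1, key n le_rfl]
  simp

end Pool.Agent.H13.TFG
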