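import Pool.Agent.H13.TFG.Closure

/-!
# Right-angled Artin groups: universal property, functoriality, the action of a group acting on the graph
-/

set_option autoImplicit false

namespace Pool.Agent.H13.TFG

variable {V W : Type}

/-- the generator of the right-angled Artin group which belongs to the vertex `x` -/
def gen (Γ : SimpleGraph V) (x : V) : RAAG Γ := PresentedGroup.of x

theorem gen_comm {Γ : SimpleGraph V} {x y : V} (h : Γ.Adj x y) :
    gen Γ x * gen Γ y = gen Γ y * gen Γ x := by
  have h1 : (PresentedGroup.mk (raagRels Γ))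
      (FreeGroup.of x * FreeGroup.of y * (FreeGroup.of x)⁻¹ * (FreeGroup.of y)⁻¹) = 1 :=
    PresentedGroup.one_of_mem ⟨x, y, h, rfl⟩
  have h2 : gen Γ x * gen Γ y * (gen Γ x)⁻¹ * (gen Γ y)⁻¹ = 1 := by
    simpa [gen, PresentedGroup.of] using h1
  have h3 : gen Γ x * gen Γ y * (gen Γ x)⁻¹ = gen Γ y := by
    rw [← mul_inv_eq_one]
    exact h2
  calc gen Γ x * gen Γ y = gen Γ x * gen Γ y * (gen Γ x)⁻¹ * gen Γ x := by group
    _ = gen Γ y * gen Γ x := by rw [h3]

/-- the universal property of a right-angled Artin group -/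
def raagLift {G : Type*} [Group G] (Γ : SimpleGraph V) (f : V → G)
    (hf : ∀ x y, Γ.Adj x y → f x * f y = f y * f x) : RAAG Γ →* G :=
  PresentedGroup.toGroup (f := f) (by
    rintro r ⟨x, y, h, rfl⟩
    simp only [map_mul, map_inv, FreeGroup.lift_apply_of]
    rw [hf x y h]
    group)

@[simp] theorem raagLift_gen {G : Type*} [Group G] (Γ : SimpleGraph V) (f : V → G)
    (hf : ∀ x y, Γ.Adj x y → f x * f y = f y * f x) (x : V) : raagLift Γ f hf (gen Γ x) = f x :=
  PresentedGroup.toGroup.of _

theorem raag_ext {G : Type*} [Group G] {Γ : SimpleGraph V} {f g : RAAG Γ →* G}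
    (h : ∀ x, f (gen Γ x) = g (gen Γ x)) : f = g :=
  PresentedGroup.ext h

/-- functoriality of right-angled Artin groups for adjacency preserving maps -/
def raagMap (Γ : SimpleGraph V) (Δ : SimpleGraph W) (f : V → W)
    (hf : ∀ x y, Γ.Adj x y → Δ.Adj (f x) (f y)) : RAAG Γ →* RAAG Δ :=
  raagLift Γ (fun x => gen Δ (f x)) (fun x y h => gen_comm (hf x y h))

@[simp] theorem raagMap_gen (Γ : SimpleGraph V) (Δ : SimpleGraph W) (f : V → W)
    (hf : ∀ x y, Γ.Adj x y → Δ.Adj (f x) (f y)) (x : V) :
    raagMap Γ Δ f hf (gen Γ x) = gen Δ (f x) :=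
  raagLift_gen _ _ _ _

/-- A group `A` which acts on the vertices and preserves adjacency acts on the right-angled Artin group. -/
def raagAct (Γ : SimpleGraph V) (A : Type) [Group A] [MulAction A V]
    (hA : ∀ (a : A) x y, Γ.Adj x y → Γ.Adj (a • x) (a • y)) : A →* MulAut (RAAG Γ) where
  toFun a :=
    { toFun := raagMap Γ Γ (fun x => a • x) (hA a)
      invFun := raagMap Γ Γ (fun x => a⁻¹ • x) (hA a⁻¹)
      left_inv := by
        intro r
        have : (raagMap Γ Γ (fun x => a⁻¹ • x) (hA a⁻¹)).comp
            (raagMap Γ Γ (fun x => a • x) (hA a)) = MonoidHom.id _ := by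
          apply raag_ext
          intro x
          simp
        exact DFunLike.congr_fun this r
      right_inv := by
        intro r
        have : (raagMap Γ Γ (fun x => a • x) (hA a)).comp
            (raagMap Γ Γ (fun x => a⁻¹ • x) (hA a⁻¹)) = MonoidHom.id _ := by
          apply raag_ext
          intro x
          simp
        exact DFunLike.congr_fun this r
      map_mul' := fun r s => map_mul _ r s }
  map_one' := by
    ext r
    have : raagMap Γ Γ (fun x => (1 : A) • x) (hA 1) = MonoidHom.id _ := by
      apply raag_ext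
      intro x
      simp
    exact DFunLike.congr_fun this r
  map_mul' := by
    intro a b
    ext r
    have : raagMap Γ Γ (fun x => (a * b) • x) (hA (a * b)) =
        (raagMap Γ Γ (fun x => a • x) (hA a)).comp (raagMap Γ Γ (fun x => b • x) (hA b)) := by
      apply raag_ext
      intro x
      simp [mul_smul]
    exact DFunLike.congr_fun this r

@[simp] theorem raagAct_gen (Γ : SimpleGraph V) (A : Type) [Group A] [MulAction A V]
    (hA : ∀ (a : A) x y, Γ.Adj x y → Γ.Adj (a • x) (a • y)) (a : A) (x : V) :
    raagAct Γ A hA a (gen Γ x) = gen Γ (a • x) :=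
  raagMap_gen Γ Γ (fun x => a • x) (hA a) x

/-- the subgroup generated by the vertices in a set -/
def vsub (Γ : SimpleGraph V) (S : Set V) : Subgroup (RAAG Γ) := Subgroup.closure (gen Γ '' S)

end Pool.Agent.H13.TFG
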