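import Pool.Agent.H13.TFG.Raag

/-!
# Right-angled Artin groups extended by locally finite groups
-/

set_option autoImplicit false

namespace Pool.Agent.H13.TFG

theorem raaga_inj {V : Type} (Γ : SimpleGraph V) (S : Set V) (m : RAAG (Γ.induce S) →* RAAG Γ)
    (hm : ∀ x, m (gen (Γ.induce S) x) = gen Γ x.1) : Function.Injective m := by
  classical
  let ret : RAAG Γ →* RAAG (Γ.induce S) :=
    raagLift Γ (fun x => if h : x ∈ S then gen (Γ.induce S) ⟨x, h⟩ else 1) (by
      intro x y hxy
      by_cases hx : x ∈ S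
      · by_cases hy : y ∈ S
        · rw [dif_pos hx, dif_pos hy]
          exact gen_comm (Γ := Γ.induce S) (x := ⟨x, hx⟩) (y := ⟨y, hy⟩) hxy
        · rw [dif_neg hy, mul_one, one_mul]
      · rw [dif_neg hx, mul_one, one_mul])
  have h : ret.comp m = MonoidHom.id _ := by
    apply raag_ext
    intro x
    rw [MonoidHom.comp_apply, hm]
    show raagLift Γ _ _ (gen Γ x.1) = _
    rw [raagLift_gen, dif_pos x.2]
    rfl
  intro a b hab
  have h1 := DFunLike.congr_fun h a
  have h2 := DFunLike.congr_fun h b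
  rw [MonoidHom.comp_apply] at h1 h2
  rw [hab, h2] at h1
  exact h1.symm

theorem raaga_range {V : Type} (Γ : SimpleGraph V) (S : Set V) (m : RAAG (Γ.induce S) →* RAAG Γ)
    (hm : ∀ x, m (gen (Γ.induce S) x) = gen Γ x.1) : m.range = vsub Γ S := by
  apply le_antisymm
  · rintro _ ⟨r, rfl⟩
    have hcl : (⊤ : Subgroup (RAAG (Γ.induce S))) = Subgroup.closure
        (Set.range (gen (Γ.induce S))) := (PresentedGroup.closure_range_of _).symm
    have hr : r ∈ Subgroup.closure (Set.range (gen (Γ.induce S))) := hcl ▸ Subgroup.mem_top r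
    refine Subgroup.closure_induction (p := fun r _ => m r ∈ vsub Γ S) ?_ ?_ ?_ ?_ hr
    · rintro _ ⟨x, rfl⟩
      rw [hm]
      exact Subgroup.subset_closure ⟨x.1, x.2, rfl⟩
    · rw [map_one]
      exact Subgroup.one_mem _
    · intro a b _ _ ha hb
      rw [map_mul]
      exact Subgroup.mul_mem _ ha hb
    · intro a _ ha
      rw [map_inv]
      exact Subgroup.inv_mem _ ha
  · unfold vsub
    rw [Subgroup.closure_le]
    rintro _ ⟨x, hx, rfl⟩
    exact ⟨gen (Γ.induce S) ⟨x, hx⟩, hm _⟩

/-- The right-angled Artin group of an induced subgraph embeds. Proof: the map which sends `x ∈ S` to the generator of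
`x` and the other vertices to `1` is a retraction (`raagLift`, adjacent vertices go to commuting elements). -/
theorem raagMap_injective {V : Type} (Γ : SimpleGraph V) (S : Set V) :
    Function.Injective (raagMap (Γ.induce S) Γ (fun x => x.1) (fun _ _ h => h)) :=
  raaga_inj Γ S _ fun x => raagMap_gen _ _ _ _ x

/-- Proof: the range of the injective map of `raagMap_injective` is `vsub Γ S`. -/
theorem vsub_mem {C : (G : Type) → [Group G] → Prop} (hC : RaagClass C) {V : Type}
    (Γ : SimpleGraph V) (S : Set V) (hS : S.Finite) : C (vsub Γ S) := by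
  have hfin : Finite S := hS
  have h1 : C (RAAG (Γ.induce S)) := hC.raag S (Γ.induce S)
  obtain ⟨m, hm⟩ : ∃ m : RAAG (Γ.induce S) →* RAAG Γ,
      ∀ x, m (gen (Γ.induce S) x) = gen Γ x.1 :=
    ⟨raagMap (Γ.induce S) Γ (fun x => x.1) (fun _ _ h => h), fun x => raagMap_gen _ _ _ _ x⟩
  have h2 : C m.range := hC.iso _ _ (MonoidHom.ofInjective (raaga_inj Γ S m hm)) h1
  rw [← raaga_range Γ S m hm]
  exact h2

/-- Every element of a right-angled Artin group is in `vsub Γ S` for a finite set `S`. Proof: the union of the directed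
family `vsub Γ S` contains all generators (`PresentedGroup.closure_range_of`, closure induction). -/
theorem exists_vsub {V : Type} (Γ : SimpleGraph V) (r : RAAG Γ) : ∃ S : Set V, S.Finite ∧ r ∈ vsub Γ S := by
  have hmono : ∀ S S' : Set V, S ⊆ S' → vsub Γ S ≤ vsub Γ S' := fun S S' h =>
    Subgroup.closure_mono (Set.image_mono h)
  have hcl : (⊤ : Subgroup (RAAG Γ)) = Subgroup.closure (Set.range (gen Γ)) :=
    (PresentedGroup.closure_range_of _).symm
  have hr : r ∈ Subgroup.closure (Set.range (gen Γ)) := hcl ▸ Subgroup.mem_top r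
  refine Subgroup.closure_induction (p := fun r _ =>
    ∃ S : Set V, S.Finite ∧ r ∈ vsub Γ S) ?_ ?_ ?_ ?_ hr
  · rintro _ ⟨x, rfl⟩
    exact ⟨{x}, Set.finite_singleton x, Subgroup.subset_closure ⟨x, rfl, rfl⟩⟩
  · exact ⟨∅, Set.finite_empty, Subgroup.one_mem _⟩
  · rintro a b _ _ ⟨S, hS, ha⟩ ⟨S', hS', hb⟩
    exact ⟨S ∪ S', hS.union hS', Subgroup.mul_mem _ (hmono _ _ Set.subset_union_left ha)
      (hmono _ _ Set.subset_union_right hb)⟩
  · rintro a _ ⟨S, hS, ha⟩
    exact ⟨S, hS, Subgroup.inv_mem _ ha⟩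

end Pool.Agent.H13.TFG
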