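import Pool.Agent.H13.TFG.RefA

/-!
# First return maps of images of sections; the permutation `rho`
-/

set_option autoImplicit false

namespace Pool.Agent.H13.TFG

variable {X : Type} {T : Equiv.Perm X} {B B' B'' E F : Set X}

/-- Proof. Both sides are the identity off `a '' E` (`ret_of_notMem`). For `y = a x`, `x ∈ E`: `ret T E x` is the point
of `E` with base `nx T B x` (`IsSec.bas_ret`), so `a (ret T E x)` is the point of `a '' E` with base `nx T B x`.
`ret T (a '' E) (a x)` is the point of `a '' E` with base `nx T B (a x)`, and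
`nx T B (a x) = nx T B (bas T B (a x)) = nx T B (bas T B x) = nx T B x` (`nx_bas`). Uniqueness in `IsSec`. -/
theorem Pres.ret_image (hB : Rec T B) {a : Equiv.Perm X} (ha : Pres T B a) (hE : IsSec T B E) :
    ret T (a '' E) = a * ret T E * a⁻¹ := by
  have hR := IsSec.rec' hB hE
  have hE2 := ha.isSec_image hE
  have hR2 := IsSec.rec' hB hE2
  ext y
  change ret T (a '' E) y = a (ret T E (a⁻¹ y))
  have hy0 : a (a⁻¹ y) = y := a.apply_symm_apply y
  by_cases hy : y ∈ a '' E
  · obtain ⟨x, hx, rfl⟩ := hy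
    have h0 : a⁻¹ (a x) = x := a.symm_apply_apply x
    rw [h0]
    have hm : a x ∈ a '' E := ⟨x, hx, rfl⟩
    have h1 := hE.bas_ret hB hx
    have h2 := hE2.bas_ret hB hm
    have h3 : nx T B (a x) = nx T B x := by
      rw [← nx_bas hB (a x), ha x, nx_bas hB x]
    rw [h3] at h2
    have h4 : bas T B (a (ret T E x)) = nx T B x := by rw [ha, h1]
    exact (hE2 (nx T B x) (fst_mem hB (T x))).unique
      ⟨ret_mem hR2 hm, h2⟩ ⟨⟨_, ret_mem hR hx, rfl⟩, h4⟩
  · have h1 : a⁻¹ y ∉ E := fun h' => hy ⟨_, h', hy0⟩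
    rw [ret_of_notMem hy, ret_of_notMem h1, hy0]

/-- Proof. `E' = cut T B B' E`. If `x ∉ E` nothing moves. Let `x ∈ E`, `y = ret T E x ∈ E`, `bas T B y = nx T B x`.
Case `nx T B x ∈ B'`: then `y ∈ E'`, `w = (ret T E')⁻¹ y ∈ E'`, `ret T E' w = y`, so
`nx T B' w = bas T B' y = bas T B y = nx T B x = nx T B' x` (`IsSec.bas_ret` for `E'` and `B'`, `bas_eq_of_mem`,
`nx_eq_of_mem`), hence `bas T B' w = bas T B' x` by `bas_inv_nx`.
Case `nx T B x ∉ B'`: then `y ∉ E'`, so `(ret T E')⁻¹ y = y`; `bas T B' y = bas T B' (bas T B y) = bas T B' z` with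
`z = nx T B x ∉ B'`, and `bas T B' z = bas T B' (T⁻¹ z)` (`bas_apply` at `T⁻¹ z`) `= bas T B' (bas T B (T⁻¹ z))
= bas T B' (bas T B x) = bas T B' x` (`bas_bas`, `bas_inv_nx`). -/
theorem pres_rho (hB : Rec T B) (hB' : Rec T B') (h : B' ⊆ B) (hE : IsSec T B E) :
    Pres T B' ((ret T (cut T B B' E))⁻¹ * ret T E) := by
  intro x
  change bas T B' ((ret T (cut T B B' E))⁻¹ (ret T E x)) = bas T B' x
  have hR := IsSec.rec' hB hE
  have hS := isSec_cut hB hB' h hE
  have hR2 := IsSec.rec' hB' hS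
  by_cases hx : x ∈ E
  · have h1 := hE.bas_ret hB hx
    have hy : ret T E x ∈ E := ret_mem hR hx
    by_cases hn : nx T B x ∈ B'
    · have hy' : ret T E x ∈ cut T B B' E := ⟨hy, by
        change bas T B (ret T E x) ∈ B'
        rw [h1]; exact hn⟩
      have hw : (ret T (cut T B B' E))⁻¹ (ret T E x) ∈ cut T B B' E := ret_inv_mem hR2 hy'
      have h2 := hS.bas_ret hB' hw
      have h3 : ret T (cut T B B' E) ((ret T (cut T B B' E))⁻¹ (ret T E x)) = ret T E x :=
        (ret T (cut T B B' E)).apply_symm_apply _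
      rw [h3] at h2
      have h4 : bas T B (ret T E x) ∈ B' := by rw [h1]; exact hn
      rw [bas_eq_of_mem hB hB' h h4, h1, ← nx_eq_of_mem hB hB' h hn] at h2
      rw [← bas_inv_nx hB' ((ret T (cut T B B' E))⁻¹ (ret T E x)), ← h2, bas_inv_nx hB' x]
    · have hy' : ret T E x ∉ cut T B B' E := by
        rintro ⟨-, h2⟩
        have h2' : bas T B (ret T E x) ∈ B' := h2
        rw [h1] at h2'
        exact hn h2'
      rw [ret_inv_of_notMem hy', ← bas_bas hB hB' h (ret T E x), h1]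
      have h0 : T (T⁻¹ (nx T B x)) = nx T B x := T.apply_symm_apply _
      have h2 : T (T⁻¹ (nx T B x)) ∉ B' := by rw [h0]; exact hn
      have h3 := bas_apply hB' h2
      rw [h0] at h3
      rw [h3, ← bas_bas hB hB' h (T⁻¹ (nx T B x)), bas_inv_nx hB x, bas_bas hB hB' h x]
  · rw [ret_of_notMem hx]
    have h1 : x ∉ cut T B B' E := fun h' => hx h'.1
    rw [ret_inv_of_notMem h1]

end Pool.Agent.H13.TFG
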