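import Pool.Agent.H13.TFG.Blk

/-!
# Permutations which preserve the blocks; refinement of blocks

`B' ⊆ B` are recurrent sets. `cut T B B' E` is the set of the points of `E` which lie in blocks of `B` with base point
in `B'`. If `E` is a section for `B` then `cut T B B' E` is a section for `B'`, and the permutation
`(ret T (cut T B B' E))⁻¹ * ret T E` preserves the blocks of `B'`.
-/

set_option autoImplicit false

namespace Pool.Agent.H13.TFG

variable {X : Type} {T : Equiv.Perm X} {B B' B'' E F : Set X}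

/-- `a` preserves the blocks of `B` -/
def Pres (T : Equiv.Perm X) (B : Set X) (a : Equiv.Perm X) : Prop := ∀ x, bas T B (a x) = bas T B x

/-- the points of `E` in blocks of `B` with base point in `B'` -/
def cut (T : Equiv.Perm X) (B B' E : Set X) : Set X := E ∩ {x | bas T B x ∈ B'}

theorem cut_subset : cut T B B' E ⊆ E := Set.inter_subset_left

/-- Proof: apply the hypothesis to `a⁻¹ x`. -/
theorem Pres.inv {a : Equiv.Perm X} (h : Pres T B a) : Pres T B a⁻¹ := by
  intro x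
  have h1 := h (a⁻¹ x)
  have h2 : a (a⁻¹ x) = x := a.apply_symm_apply x
  rw [h2] at h1
  exact h1.symm

theorem Pres.mul {a b : Equiv.Perm X} (ha : Pres T B a) (hb : Pres T B b) : Pres T B (a * b) := by
  intro x
  change bas T B (a (b x)) = _
  rw [ha, hb]

theorem Pres.one : Pres T B 1 := fun _ => rfl

/-- Proof: `bas_bas` twice. -/
theorem Pres.mono (hB : Rec T B) (hB' : Rec T B') (h : B' ⊆ B) {a : Equiv.Perm X}
    (ha : Pres T B a) : Pres T B' a := by
  intro x
  rw [← bas_bas hB hB' h (a x), ha x, bas_bas hB hB' h x]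

/-- Proof: for `z ∈ B` let `x` be the point of `E` with base `z`; the point wanted is `a x`. -/
theorem Pres.isSec_image {a : Equiv.Perm X} (ha : Pres T B a) (hE : IsSec T B E) :
    IsSec T B (a '' E) := by
  intro z hz
  obtain ⟨x, ⟨hx, hb⟩, hu⟩ := hE z hz
  refine ⟨a x, ⟨⟨x, hx, rfl⟩, by rw [ha x, hb]⟩, ?_⟩
  rintro _ ⟨⟨y, hy, rfl⟩, hy2⟩
  rw [ha y] at hy2
  rw [hu y ⟨hy, hy2⟩]

/-- Proof: for `z ∈ B'` let `x ∈ E` be the point with `bas T B x = z`; then `x ∈ cut T B B' E` and `bas T B' x = z`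
(`bas_eq_of_mem`). If `y ∈ cut T B B' E` has `bas T B' y = z` then `bas T B y = bas T B' y = z`, so `y = x`. -/
theorem isSec_cut (hB : Rec T B) (hB' : Rec T B') (h : B' ⊆ B) (hE : IsSec T B E) :
    IsSec T B' (cut T B B' E) := by
  intro z hz
  obtain ⟨x, ⟨hx, hb⟩, hu⟩ := hE z (h hz)
  have hx' : bas T B x ∈ B' := by rw [hb]; exact hz
  refine ⟨x, ⟨⟨hx, hx'⟩, by rw [bas_eq_of_mem hB hB' h hx', hb]⟩, ?_⟩
  rintro y ⟨⟨hy, hy'⟩, hy2⟩
  have hy'' : bas T B y ∈ B' := hy'
  rw [bas_eq_of_mem hB hB' h hy''] at hy2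
  exact hu y ⟨hy, hy2⟩

/-- Proof: `x ∈ E` with `bas T B x ∈ B''`: then `bas T B' x = bas T B x` (`bas_eq_of_mem`, as `B'' ⊆ B'`). -/
theorem cut_cut (hB : Rec T B) (hB' : Rec T B') (h : B' ⊆ B) (h' : B'' ⊆ B') :
    cut T B' B'' (cut T B B' E) = cut T B B'' E := by
  ext x
  constructor
  · rintro ⟨⟨hx, h1⟩, h2⟩
    have h1' : bas T B x ∈ B' := h1
    have h2' : bas T B' x ∈ B'' := h2
    rw [bas_eq_of_mem hB hB' h h1'] at h2'
    exact ⟨hx, h2'⟩
  · rintro ⟨hx, h1⟩
    have h1' : bas T B x ∈ B'' := h1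
    have h2 : bas T B' x ∈ B'' := by
      rw [bas_eq_of_mem hB hB' h (h' h1')]
      exact h1'
    exact ⟨⟨hx, h' h1'⟩, h2⟩

/-- Proof: `bas T B (a x) = bas T B x`. -/
theorem cut_image {a : Equiv.Perm X} (ha : Pres T B a) : cut T B B' (a '' E) = a '' cut T B B' E := by
  ext x
  constructor
  · rintro ⟨⟨y, hy, rfl⟩, h1⟩
    have h1' : bas T B (a y) ∈ B' := h1
    rw [ha y] at h1'
    exact ⟨y, ⟨hy, h1'⟩, rfl⟩
  · rintro ⟨y, ⟨hy, h1⟩, rfl⟩
    have h1' : bas T B y ∈ B' := h1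
    have h2 : bas T B (a y) ∈ B' := by rw [ha y]; exact h1'
    exact ⟨⟨y, hy, rfl⟩, h2⟩

/-- Proof: all points of `E` are in blocks with base point in `B`. -/
theorem cut_self (hB : Rec T B) : cut T B B E = E := by
  ext x
  exact ⟨fun h => h.1, fun h => ⟨h, bas_mem hB x⟩⟩

end Pool.Agent.H13.TFG
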