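import Pool.Agent.H13.TFG.Orb

/-!
# The first return map `ret T E` on `E`, extended by the identity
-/

set_option autoImplicit false

namespace Pool.Agent.H13.TFG

variable {X : Type} {T : Equiv.Perm X} {E F : Set X}

/-- going to the next point of `E` and coming back -/
theorem bas_inv_fst (hE : Rec T E) {x : X} (hx : x ∈ E) : bas T E (T⁻¹ (fst T E (T x))) = x := by
  have h0 : T⁻¹ (fst T E (T x)) = (T ^ hit T E (T x)) x := by
    rw [Equiv.Perm.inv_eq_iff_eq, fst]
    have h1 : (T ^ hit T E (T x)) (T x) = (T ^ (hit T E (T x) + 1)) x := by rw [pow_succ]; rfl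
    rw [h1, pow_succ']
    rfl
  rw [h0]
  refine (bas_pow hx ?_).1
  intro i h1 h2
  obtain ⟨j, rfl⟩ : ∃ j, i = j + 1 := ⟨i - 1, by omega⟩
  have h3 : (T ^ (j + 1)) x = (T ^ j) (T x) := by rw [pow_succ]; rfl
  rw [h3]
  exact notMem_of_lt_hit (by omega)

/-- going to the previous point of `E` and coming back -/
theorem fst_bas_inv (hE : Rec T E) {y : X} (hy : y ∈ E) : fst T E (T (bas T E (T⁻¹ y))) = y := by
  have := bas_inv_fst hE.inv hy
  simpa [bas] using this

open Classical in
/-- the first return map on `E`, the identity off `E` (and the identity if `E` is not recurrent) -/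
noncomputable def ret (T : Equiv.Perm X) (E : Set X) : Equiv.Perm X :=
  if hE : Rec T E then
    { toFun := fun x => if x ∈ E then fst T E (T x) else x
      invFun := fun y => if y ∈ E then bas T E (T⁻¹ y) else y
      left_inv := by
        intro x
        by_cases hx : x ∈ E
        · simp only [hx, if_true]
          rw [if_pos (fst_mem hE _)]
          exact bas_inv_fst hE hx
        · simp [hx]
      right_inv := by
        intro y
        by_cases hy : y ∈ E
        · simp only [hy, if_true]
          rw [if_pos (bas_mem hE _)]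
          exact fst_bas_inv hE hy
        · simp [hy] }
  else 1

theorem ret_of_mem (hE : Rec T E) {x : X} (hx : x ∈ E) : ret T E x = fst T E (T x) := by
  rw [ret, dif_pos hE]
  exact if_pos hx

theorem ret_of_notMem {x : X} (hx : x ∉ E) : ret T E x = x := by
  by_cases hE : Rec T E
  · rw [ret, dif_pos hE]
    exact if_neg hx
  · rw [ret, dif_neg hE]
    rfl

theorem ret_mem (hE : Rec T E) {x : X} (hx : x ∈ E) : ret T E x ∈ E := by
  rw [ret_of_mem hE hx]
  exact fst_mem hE _

theorem ret_inv_of_mem (hE : Rec T E) {x : X} (hx : x ∈ E) : (ret T E)⁻¹ x = bas T E (T⁻¹ x) := by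
  rw [Equiv.Perm.inv_eq_iff_eq, ret_of_mem hE (bas_mem hE _), fst_bas_inv hE hx]

theorem ret_inv_of_notMem {x : X} (hx : x ∉ E) : (ret T E)⁻¹ x = x := by
  rw [Equiv.Perm.inv_eq_iff_eq, ret_of_notMem hx]

theorem ret_inv_mem (hE : Rec T E) {x : X} (hx : x ∈ E) : (ret T E)⁻¹ x ∈ E := by
  rw [ret_inv_of_mem hE hx]
  exact bas_mem hE _

/-- first return maps on disjoint sets commute -/
theorem ret_comm (hE : Rec T E) (hF : Rec T F) (h : Disjoint E F) :
    ret T E * ret T F = ret T F * ret T E := by
  ext x
  change ret T E (ret T F x) = ret T F (ret T E x)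
  by_cases hx : x ∈ E
  · have h1 : x ∉ F := fun h' => Set.disjoint_left.1 h hx h'
    have h2 : ret T E x ∉ F := fun h' => Set.disjoint_left.1 h (ret_mem hE hx) h'
    rw [ret_of_notMem h1, ret_of_notMem h2]
  · by_cases hy : x ∈ F
    · have h2 : ret T F x ∉ E := fun h' => Set.disjoint_left.1 h h' (ret_mem hF hy)
      rw [ret_of_notMem hx, ret_of_notMem h2]
    · rw [ret_of_notMem hx, ret_of_notMem hy, ret_of_notMem hx]

/-- the first return map maps `E` onto `E` -/
theorem ret_image (hE : Rec T E) : ret T E '' E = E := by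
  ext y
  constructor
  · rintro ⟨x, hx, rfl⟩
    exact ret_mem hE hx
  · intro hy
    exact ⟨(ret T E)⁻¹ y, ret_inv_mem hE hy, by simp⟩

/-- the first return map on `E` fixes every set disjoint from `E` -/
theorem ret_image_of_disjoint (h : Disjoint E F) : ret T E '' F = F := by
  ext y
  constructor
  · rintro ⟨x, hx, rfl⟩
    rwa [ret_of_notMem (fun h' => Set.disjoint_left.1 h h' hx)]
  · intro hy
    exact ⟨y, hy, ret_of_notMem (fun h' => Set.disjoint_left.1 h h' hy)⟩

end Pool.Agent.H13.TFG
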