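import Pool.Agent.H13.TFG.Ful
import Pool.Agent.H13.TFG.Raag

/-!
# The groups `PG T B` and their maps

`AG T B`: elements of the topological full group which preserve the blocks of `B`; `VS T B`: clopen sections;
`PG T B`: the right-angled Artin group of the graph of clopen sections (adjacent: disjoint) extended by `AG T B`.
`psi`: map to the topological full group, a section goes to its first return map. `xi`: change of `B`.
-/

set_option autoImplicit false

namespace Pool.Agent.H13.TFG

variable {X : Type} [TopologicalSpace X]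

/-- what is used of the dynamics: the neighbourhoods of `x0` are visited by every orbit in both directions, the visits
to a clopen set with this property have bounded gaps, there is no periodic point -/
structure Sys (T : X ≃ₜ X) (x0 : X) : Prop where
  rec' : ∀ E : Set X, IsClopen E → x0 ∈ E → Rec (pT T) E
  bdd : ∀ E : Set X, IsClopen E → Rec (pT T) E →
    ∃ N : ℕ, ∀ x, hit (pT T) E x ≤ N ∧ lev (pT T) E x ≤ N
  aper : ∀ (x : X) (n : ℤ), (pT T ^ n) x = x → n = 0

/-- clopen neighbourhoods of `x0`, smaller sets are larger elements -/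
structure Nb (x0 : X) : Type where
  /-- the set -/
  set : Set X
  /-- it is clopen -/
  clopen : IsClopen set
  /-- it contains `x0` -/
  mem : x0 ∈ set

instance (x0 : X) : Preorder (Nb x0) where
  le B B' := B'.set ⊆ B.set
  le_refl B := subset_refl B.set
  le_trans _ _ _ h h' := h'.trans h

theorem Nb.subset {x0 : X} {B B' : Nb x0} (h : B ≤ B') : B'.set ⊆ B.set := h

theorem Nb.rec' {T : X ≃ₜ X} {x0 : X} (S : Sys T x0) (B : Nb x0) : Rec (pT T) B.set :=
  S.rec' B.set B.clopen B.mem

/-- the elements of the topological full group which preserve the blocks of `B` -/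
def AG (T : X ≃ₜ X) (B : Set X) : Subgroup (Equiv.Perm X) where
  carrier := {a | a ∈ FG T ∧ Pres (pT T) B a}
  mul_mem' ha hb := ⟨mul_mem ha.1 hb.1, ha.2.mul hb.2⟩
  one_mem' := ⟨one_mem _, Pres.one⟩
  inv_mem' ha := ⟨inv_mem ha.1, ha.2.inv⟩

/-- clopen sections -/
@[ext] structure VS (T : X ≃ₜ X) (B : Set X) : Type where
  /-- the set -/
  set : Set X
  /-- it is clopen -/
  clopen : IsClopen set
  /-- it is a section -/
  sec : IsSec (pT T) B set

instance (T : X ≃ₜ X) (B : Set X) : MulAction (AG T B) (VS T B) where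
  smul a E := ⟨a.1 '' E.set, isClopen_image a.2.1 E.clopen, a.2.2.isSec_image E.sec⟩
  one_smul E := VS.ext (Set.image_id E.set)
  mul_smul a b E := VS.ext (Set.image_comp a.1 b.1 E.set)

theorem smul_set {T : X ≃ₜ X} {B : Set X} (a : AG T B) (E : VS T B) :
    (a • E).set = a.1 '' E.set := rfl

/-- the graph of clopen sections: different and disjoint -/
def GR (T : X ≃ₜ X) (B : Set X) : SimpleGraph (VS T B) where
  Adj E F := E ≠ F ∧ Disjoint E.set F.set
  symm := ⟨fun _ _ h => ⟨h.1.symm, h.2.symm⟩⟩
  loopless := ⟨fun _ h => h.1 rfl⟩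

theorem GR_smul (T : X ≃ₜ X) (B : Set X) (a : AG T B) (E F : VS T B) (h : (GR T B).Adj E F) :
    (GR T B).Adj (a • E) (a • F) := by
  refine ⟨fun h' => h.1 (MulAction.injective a h'), ?_⟩
  rw [smul_set, smul_set]
  exact (Set.disjoint_image_iff a.1.injective).2 h.2

/-- the group attached to `B` -/
abbrev PG (T : X ≃ₜ X) (B : Set X) : Type :=
  RAAG (GR T B) ⋊[raagAct (GR T B) (AG T B) (GR_smul T B)] AG T B

end Pool.Agent.H13.TFG
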