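import Pool.Agent.H13.TFG.WinDef

/-!
# Windows are disjoint sections
-/

set_option autoImplicit false

namespace Pool.Agent.H13.TFG

variable {X : Type} [TopologicalSpace X] {T : X ≃ₜ X} {x0 : X}

/-- different windows are disjoint. Proof: `T ^ k x = T ^ l y` with `x, y ∈ B` gives `T ^ (k - l) x = y ∈ B`. -/
theorem win_disjoint {B : Set X} {R : ℤ} (h : Small T B (2 * R) ∅) {k l : ℤ} (hk : |k| ≤ R)
    (hl : |l| ≤ R) (hkl : k ≠ l) : Disjoint (win T B k) (win T B l) := by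
  rw [Set.disjoint_left]
  rintro x ⟨a, ha, rfl⟩ ⟨b, hb, hab⟩
  have h1 : (pT T ^ (k - l)) a = b := by
    have h2 : (pT T ^ l) ((pT T ^ (k - l)) a) = (pT T ^ k) a := by
      have h3 : (pT T ^ l) ((pT T ^ (k - l)) a) = (pT T ^ (l + (k - l))) a := by
        rw [zpow_add]
        rfl
      rw [h3, show l + (k - l) = k by ring]
    exact (pT T ^ l).injective (h2.trans hab.symm)
  have h2 : |k - l| ≤ 2 * R := by
    have := abs_sub k l
    linarith
  exact h.sep (k - l) (sub_ne_zero.2 hkl) h2 a ha (h1 ▸ hb)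

theorem nx_win_neg {B : Set X} {R : ℤ} (h : Small T B R ∅) {m : ℕ} (hm : 0 < m)
    (hmR : (m : ℤ) ≤ R) {w : X} (hw : w ∈ B) : nx (pT T) B ((pT T ^ (-(m : ℤ))) w) = w := by
  have key : ∀ i : ℕ, (pT T ^ i) (pT T ((pT T ^ (-(m : ℤ))) w)) = (pT T ^ ((i : ℤ) + 1 - m)) w := by
    intro i
    rw [show (i : ℤ) + 1 - m = i + 1 + -m by ring, zpow_add, zpow_add, zpow_one, zpow_natCast]
    rfl
  have h1 : (pT T ^ (m - 1)) (pT T ((pT T ^ (-(m : ℤ))) w)) = w := by
    rw [key, show ((m - 1 : ℕ) : ℤ) + 1 - m = 0 by omega]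
    rfl
  have h2 : nx (pT T) B ((pT T ^ (-(m : ℤ))) w) =
      (pT T ^ (m - 1)) (pT T ((pT T ^ (-(m : ℤ))) w)) := by
    refine fst_eq ?_ ?_
    · rw [h1]
      exact hw
    · intro i hi
      rw [key]
      refine h.sep _ (by omega) ?_ w hw
      rw [abs_le]
      constructor <;> omega
  rw [h2, h1]

/-- The windows are sections. Proof. Let `z ∈ B`. If `k ≥ 0`: `T ^ k z` has base `z` (`bas_pow`, with
`T ^ i z ∉ B` for `0 < i ≤ k`). If `x = T ^ k z'`, `z' ∈ B`, has base `z` then also base `z'`, so `z' = z`.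
If `k < 0`, `k = -m`: let `z' = nx T B z` and `x = T ^ k z'`. Then `T ^ i x ∉ B` for `0 ≤ i < m` and `T ^ m x = z'`, so
`nx T B x = z'` and `bas T B x = bas T B (T⁻¹ z') = bas T B z = z` (`bas_inv_nx`). If `y = T ^ k z''` has base `z` then
`nx T B y = z''` and `nx T B y = nx T B z = z'` (`nx_bas`), so `z'' = z'`. -/
theorem isSec_win (S : Sys T x0) (B : Nb x0) {R : ℤ} (h : Small T B.set R ∅) {k : ℤ} (hk : |k| ≤ R) :
    IsSec (pT T) B.set (win T B.set k) := by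
  have hB := B.rec' S
  intro z hz
  rcases le_or_gt 0 k with hk0 | hk0
  · obtain ⟨n, rfl⟩ := Int.eq_ofNat_of_zero_le hk0
    have h1 : ∀ w ∈ B.set, bas (pT T) B.set ((pT T ^ (n : ℤ)) w) = w := by
      intro w hw
      rw [zpow_natCast]
      refine (bas_pow hw ?_).1
      intro i hi hin
      have h2 := h.sep (i : ℤ) (by omega) ((by
        rw [abs_le] at hk ⊢
        constructor <;> omega)) w hw
      rwa [zpow_natCast] at h2
    refine ⟨(pT T ^ (n : ℤ)) z, ⟨⟨z, hz, rfl⟩, h1 z hz⟩, ?_⟩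
    rintro _ ⟨⟨w, hw, rfl⟩, hbw⟩
    rw [h1 w hw] at hbw
    rw [hbw]
  · obtain ⟨m, hm⟩ := Int.eq_ofNat_of_zero_le (show 0 ≤ -k by omega)
    obtain rfl : k = -(m : ℤ) := by omega
    have hm0 : 0 < m := by omega
    have hmR : (m : ℤ) ≤ R := by
      rw [abs_le] at hk
      omega
    have hz' : nx (pT T) B.set z ∈ B.set := fst_mem hB _
    refine ⟨(pT T ^ (-(m : ℤ))) (nx (pT T) B.set z), ⟨⟨_, hz', rfl⟩, ?_⟩, ?_⟩
    · rw [← bas_inv_nx hB, nx_win_neg h hm0 hmR hz', bas_inv_nx hB, bas_of_mem hz]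
    · rintro _ ⟨⟨w, hw, rfl⟩, hbw⟩
      have h1 := nx_win_neg h hm0 hmR hw
      rw [← nx_bas hB, hbw] at h1
      rw [h1]

/-- the window as a clopen section -/
def winV (S : Sys T x0) (B : Nb x0) {R : ℤ} (h : Small T B.set R ∅) (k : ℤ) (hk : |k| ≤ R) :
    VS T B.set :=
  ⟨win T B.set k, isClopen_zpow_image k B.clopen, isSec_win S B h hk⟩

end Pool.Agent.H13.TFG
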