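import Pool.Agent.H13.TFG.WinDef

/-!
# First return maps move windows to windows
-/

set_option autoImplicit false

namespace Pool.Agent.H13.TFG

variable {X : Type} [TopologicalSpace X] {T : X ≃ₜ X} {x0 : X}

omit [TopologicalSpace X] in
theorem pow_shift (P : Equiv.Perm X) (i : ℕ) (k : ℤ) (x : X) :
    (P ^ i) (P ((P ^ k) x)) = (P ^ (k + 1 + (i : ℤ))) x := by
  rw [show k + 1 + (i : ℤ) = i + 1 + k by ring, zpow_add, zpow_add, zpow_one, zpow_natCast]
  rfl

theorem ret_win_key (P : Equiv.Perm X) {B : Set X} (h0 : x0 ∈ B) {E : Set X} (hE : Rec P E)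
    {R D k : ℤ}
    (huni : ∀ m : ℤ, |m| ≤ R → ∀ x ∈ B, ∀ y ∈ B, (P ^ m) x ∈ E → (P ^ m) y ∈ E)
    (hD : ∀ x, (hit P E x : ℤ) ≤ D) (hk : |k| + D + 1 ≤ R) :
    ∃ k' : ℤ, |k'| ≤ |k| + D + 1 ∧ ∀ z ∈ B, ret P E ((P ^ k) z) = (P ^ k') z := by
  have hD0 : 0 ≤ D := le_trans (Int.natCast_nonneg _) (hD x0)
  by_cases hx : (P ^ k) x0 ∈ E
  · have hj := hD (P ((P ^ k) x0))
    have hfm : (P ^ hit P E (P ((P ^ k) x0))) (P ((P ^ k) x0)) ∈ E := fst_mem hE (P ((P ^ k) x0))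
    have hnm : ∀ i < hit P E (P ((P ^ k) x0)), (P ^ i) (P ((P ^ k) x0)) ∉ E :=
      fun i hi => notMem_of_lt_hit hi
    generalize hit P E (P ((P ^ k) x0)) = j at hj hfm hnm
    have habs : ∀ i : ℕ, i ≤ j → |k + 1 + (i : ℤ)| ≤ |k| + D + 1 := by
      intro i hi
      have h1 : (i : ℤ) ≤ j := by exact_mod_cast hi
      have h2 : (0 : ℤ) ≤ i := Int.natCast_nonneg _
      rw [abs_le]
      constructor
      · have := neg_abs_le k
        linarith
      · have := le_abs_self k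
        linarith
    refine ⟨k + 1 + j, habs j le_rfl, fun z hz => ?_⟩
    have hzE : (P ^ k) z ∈ E := huni k (by linarith) x0 h0 z hz hx
    rw [ret_of_mem hE hzE, ← pow_shift]
    refine fst_eq ?_ ?_
    · rw [pow_shift]
      refine huni _ ((habs j le_rfl).trans hk) x0 h0 z hz ?_
      rw [← pow_shift]
      exact hfm
    · intro i hi hmem
      rw [pow_shift] at hmem
      refine hnm i hi ?_
      rw [pow_shift]
      exact huni _ ((habs i hi.le).trans hk) z hz x0 h0 hmem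
  · refine ⟨k, by linarith, fun z hz => ?_⟩
    refine ret_of_notMem fun hmem => hx ?_
    exact huni k (by linarith) z hz x0 h0 hmem

omit [TopologicalSpace X] in
theorem ret_inv_eq {P : Equiv.Perm X} {E : Set X} (hE : Rec P E) : (ret P E)⁻¹ = ret P⁻¹ E := by
  ext x
  by_cases hx : x ∈ E
  · rw [ret_inv_of_mem hE hx, ret_of_mem hE.inv hx]
    rfl
  · rw [ret_inv_of_notMem hx, ret_of_notMem hx]

/-- One step of a first return map on a window. Proof. If `win T B k` is disjoint from `E` then `ret` is the identity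
on it: `k' = k`. Otherwise `win T B k ⊆ E` by `Small.uni`. Let `j = hit (pT T) E (T (T ^ k x0)) ≤ D`. For `z ∈ B` and
`i ≤ j` the point `T ^ (k + 1 + i) z` is in `E` if and only if `T ^ (k + 1 + i) x0` is (`|k + 1 + i| ≤ R`), so
`hit (pT T) E (T (T ^ k z)) = j` (`hit_eq`) and `ret (pT T) E (T ^ k z) = T ^ (k + 1 + j) z`: `k' = k + 1 + j`. -/
theorem ret_win (S : Sys T x0) (B : Nb x0) {E : Set X} (hE : Rec (pT T) E) {R D k : ℤ}
    (h : Small T B.set R {E}) (hD : ∀ x, (hit (pT T) E x : ℤ) ≤ D) (hk : |k| + D + 1 ≤ R) :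
    ∃ k' : ℤ, |k'| ≤ |k| + D + 1 ∧ ret (pT T) E '' win T B.set k = win T B.set k' := by
  obtain ⟨k', h1, h2⟩ := ret_win_key (pT T) B.mem hE (R := R) (D := D) (k := k)
    (h.uni E rfl) hD hk
  refine ⟨k', h1, ?_⟩
  rw [win, win, Set.image_image]
  exact Set.image_congr h2

/-- Proof: as `ret_win`, with `(ret (pT T) E)⁻¹ x = bas (pT T) E (T⁻¹ x)` for `x ∈ E`. -/
theorem ret_inv_win (S : Sys T x0) (B : Nb x0) {E : Set X} (hE : Rec (pT T) E) {R D k : ℤ}
    (h : Small T B.set R {E}) (hD : ∀ x, (lev (pT T) E x : ℤ) ≤ D) (hk : |k| + D + 1 ≤ R) :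
    ∃ k' : ℤ, |k'| ≤ |k| + D + 1 ∧ ⇑(ret (pT T) E)⁻¹ '' win T B.set k = win T B.set k' := by
  obtain ⟨k', h1, h2⟩ := ret_win_key (pT T)⁻¹ B.mem hE.inv (R := R) (D := D) (k := -k)
    (fun m hm x hx y hy hxy => by
      have hm' : |(-m)| ≤ R := by rwa [abs_neg]
      have := h.uni E rfl (-m) hm' x hx y hy
      rw [inv_zpow'] at hxy ⊢
      exact this hxy) hD (by rwa [abs_neg])
  refine ⟨-k', by rwa [abs_neg, ← abs_neg k], ?_⟩
  rw [win, win, Set.image_image, ret_inv_eq hE]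
  refine Set.image_congr fun z hz => ?_
  have h3 := h2 z hz
  rw [inv_zpow', inv_zpow', neg_neg] at h3
  exact h3

end Pool.Agent.H13.TFG
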