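import Pool.Agent.H13.TFG.WinDef

/-!
# The part of a section cut out by a small set is a window
-/

set_option autoImplicit false

namespace Pool.Agent.H13.TFG

variable {X : Type} [TopologicalSpace X] {T : X ≃ₜ X} {x0 : X}

/-- The section of the small set cut out of a section `E` is a window. Proof. `B ≤ B'`. Let `j` be the level (in the
blocks of `B`) of the point `e ∈ E` with base `x0`: `e = T ^ j x0`, `T ^ i x0 ∉ B` for `0 < i ≤ j`, `j ≤ D`. For
`z ∈ B'` the point `T ^ j z` is in `E` and `T ^ i z ∉ B` for `0 < i ≤ j` (`Small.uni` for `E` and `B`), so `T ^ j z` is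
the point of `E` with base `z`. Hence `cut T B B' E = win T B' j`. -/
theorem cut_eq_win (S : Sys T x0) (B B' : Nb x0) (hBB' : B ≤ B') (E : VS T B.set) {R D : ℤ}
    (h : Small T B'.set R {E.set, B.set}) (hD : ∀ x, (lev (pT T) B.set x : ℤ) ≤ D) (hR : D ≤ R) :
    ∃ k : ℤ, |k| ≤ D ∧ cut (pT T) B.set B'.set E.set = win T B'.set k := by
  have hB := B.rec' S
  obtain ⟨e, ⟨heE, heb⟩, -⟩ := E.sec x0 B.mem
  set j := lev (pT T) B.set e with hj
  have hjD : (j : ℤ) ≤ D := hD e
  have he : ((pT T) ^ j) x0 = e := by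
    have := pow_lev_bas (T := pT T) (E := B.set) e
    rw [heb] at this
    exact this
  have hno : ∀ i : ℕ, 0 < i → i ≤ j → ((pT T) ^ i) x0 ∉ B.set := by
    intro i h0 hi
    have := notMem_of_pos_le_lev (T := pT T) (E := B.set) (x := e) h0 hi
    rwa [heb] at this
  -- the same for all points of `B'`
  have hsub : B'.set ⊆ B.set := hBB'
  have hz : ∀ z ∈ B'.set, ((pT T) ^ j) z ∈ E.set ∧ bas (pT T) B.set (((pT T) ^ j) z) = z := by
    intro z hz
    constructor
    · have h1 := h.uni E.set (by simp) (j : ℤ) (by rw [Nat.abs_cast]; omega) x0 B'.mem z hz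
      rw [zpow_natCast] at h1
      apply h1
      rw [he]
      exact heE
    · refine (bas_pow (hsub hz) ?_).1
      intro i h0 hi hmem
      have h1 := h.uni B.set (by simp) (i : ℤ) (by rw [Nat.abs_cast]; omega) z hz x0 B'.mem
      rw [zpow_natCast] at h1
      exact hno i h0 hi (h1 hmem)
  refine ⟨(j : ℤ), by rw [Nat.abs_cast]; exact hjD, ?_⟩
  ext x
  constructor
  · rintro ⟨hxE, hxB⟩
    change bas (pT T) B.set x ∈ B'.set at hxB
    obtain ⟨h1, h2⟩ := hz _ hxB
    have h3 : x = ((pT T) ^ j) (bas (pT T) B.set x) :=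
      (E.sec _ (hsub hxB)).unique ⟨hxE, rfl⟩ ⟨h1, h2⟩
    exact ⟨bas (pT T) B.set x, hxB, by rw [zpow_natCast]; exact h3.symm⟩
  · rintro ⟨z, hzB, rfl⟩
    rw [zpow_natCast]
    obtain ⟨h1, h2⟩ := hz z hzB
    exact ⟨h1, by change bas (pT T) B.set _ ∈ B'.set; rw [h2]; exact hzB⟩

end Pool.Agent.H13.TFG
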