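import Pool.Agent.H13.TFG.WinA
import Pool.Agent.H13.TFG.WinB
import Pool.Agent.H13.TFG.WinC
import Pool.Agent.H13.TFG.WinD

/-!
# Windows (collects `WinA` to `WinD`)
-/
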