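import Pool.Agent.H13.TFG.WinDef

/-!
# Small neighbourhoods exist
-/

set_option autoImplicit false

namespace Pool.Agent.H13.TFG

variable {X : Type} [TopologicalSpace X] {T : X ≃ₜ X} {x0 : X}

private theorem isClopen_zpow_preimage (k : ℤ) {E : Set X} (hE : IsClopen E) :
    IsClopen ((pT T ^ k) ⁻¹' E) := by
  have h : (pT T ^ k) ⁻¹' E = (pT T ^ (-k)) '' E := by
    ext x
    constructor
    · intro hx
      refine ⟨(pT T ^ k) x, hx, ?_⟩
      rw [← Equiv.Perm.mul_apply, ← zpow_add]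
      simp
    · rintro ⟨y, hy, rfl⟩
      have h1 : (pT T ^ k) ((pT T ^ (-k)) y) = y := by
        rw [← Equiv.Perm.mul_apply, ← zpow_add]
        simp
      change (pT T ^ k) ((pT T ^ (-k)) y) ∈ E
      rw [h1]
      exact hy
  rw [h]
  exact isClopen_zpow_image (-k) hE

/-- points can be separated from their translate -/
private theorem exists_sep [CompactSpace X] [T2Space X] [TotallyDisconnectedSpace X] (S : Sys T x0)
    (x0 : X) (k : ℤ) :
    ∃ D : Set X, IsClopen D ∧ x0 ∈ D ∧ (k ≠ 0 → ∀ x ∈ D, (pT T ^ k) x ∉ D) := by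
  by_cases hk : k = 0
  · exact ⟨Set.univ, isClopen_univ, trivial, fun h => absurd hk h⟩
  · have hne : x0 ≠ (pT T ^ k) x0 := fun h => hk (S.aper x0 k h.symm)
    obtain ⟨C, hC, h1, h2⟩ := exists_isClopen_of_totally_separated hne
    refine ⟨C ∩ (pT T ^ k) ⁻¹' Cᶜ, hC.inter (isClopen_zpow_preimage k hC.compl), ⟨h1, h2⟩, ?_⟩
    rintro - x ⟨_, hx⟩ h3
    exact hx h3.1

/-- membership in a clopen set is constant near a point -/
private theorem exists_uni (x0 : X) (E : Set X) (k : ℤ) :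
    ∃ D : Set X, IsClopen D ∧ x0 ∈ D ∧ (IsClopen E → ∀ x ∈ D, ∀ y ∈ D,
      (pT T ^ k) x ∈ E → (pT T ^ k) y ∈ E) := by
  by_cases hE : IsClopen E
  · by_cases h : (pT T ^ k) x0 ∈ E
    · exact ⟨(pT T ^ k) ⁻¹' E, isClopen_zpow_preimage k hE, h, fun _ _ _ _ hy _ => hy⟩
    · exact ⟨(pT T ^ k) ⁻¹' Eᶜ, isClopen_zpow_preimage k hE.compl, h,
        fun _ x hx _ _ hxE => absurd hxE hx⟩
  · exact ⟨Set.univ, isClopen_univ, trivial, fun h => absurd h hE⟩

/-- Small neighbourhoods exist. Proof. For each `k ≠ 0`, `|k| ≤ R` the point `T ^ k x0` is different from `x0`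
(`S.aper`), so there is a clopen set `C_k` with `x0 ∈ C_k`, `T ^ k x0 ∉ C_k` (`exists_isClopen_of_totally_separated`
or a basis of clopen sets, e.g. `TotallySeparatedSpace` from `CompactSpace`, `T2Space`, `TotallyDisconnectedSpace`);
put `D_k = C_k ∩ (T ^ k) ⁻¹' C_kᶜ`. For `E ∈ L`, `|k| ≤ R` let `F_(E,k) = (T ^ k) ⁻¹' E` or its complement, whichever
contains `x0`. Intersect `B` with all these finitely many clopen sets. -/
theorem exists_small [CompactSpace X] [T2Space X] [TotallyDisconnectedSpace X] (S : Sys T x0)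
    (B : Nb x0) (R : ℤ) (L : Set (Set X)) (hL : L.Finite) (hc : ∀ E ∈ L, IsClopen E) :
    ∃ B' : Nb x0, B ≤ B' ∧ Small T B'.set R L := by
  choose D hD using exists_sep S x0
  choose F hF using fun E : Set X => exists_uni (T := T) x0 E
  have h1 : IsClopen (⋂ k ∈ Set.Icc (-R) R, D k) :=
    (Set.finite_Icc (-R) R).isClopen_biInter fun k _ => (hD k).1
  have h2 : IsClopen (⋂ E ∈ L, ⋂ k ∈ Set.Icc (-R) R, F E k) :=
    hL.isClopen_biInter fun E _ =>
      (Set.finite_Icc (-R) R).isClopen_biInter fun k _ => (hF E k).1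
  refine ⟨⟨B.set ∩ ((⋂ k ∈ Set.Icc (-R) R, D k) ∩ (⋂ E ∈ L, ⋂ k ∈ Set.Icc (-R) R, F E k)),
    B.clopen.inter (h1.inter h2), ⟨B.mem, ?_, ?_⟩⟩, fun x hx => hx.1, ⟨?_, ?_⟩⟩
  · simp only [Set.mem_iInter]
    exact fun k _ => (hD k).2.1
  · simp only [Set.mem_iInter]
    exact fun E _ k _ => (hF E k).2.1
  · intro k hk0 hkR x hx hx'
    have hk : k ∈ Set.Icc (-R) R := abs_le.1 hkR
    have hx1 : x ∈ D k := Set.mem_iInter₂.1 hx.2.1 k hk
    have hx2 : (pT T ^ k) x ∈ D k := Set.mem_iInter₂.1 hx'.2.1 k hk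
    exact (hD k).2.2 hk0 x hx1 hx2
  · intro E hE k hkR x hx y hy hxE
    have hk : k ∈ Set.Icc (-R) R := abs_le.1 hkR
    have hx1 : x ∈ F E k := Set.mem_iInter₂.1 (Set.mem_iInter₂.1 hx.2.2 E hE) k hk
    have hy1 : y ∈ F E k := Set.mem_iInter₂.1 (Set.mem_iInter₂.1 hy.2.2 E hE) k hk
    exact (hF E k).2.2 (hc E hE) x hx1 y hy1 hxE

end Pool.Agent.H13.TFG
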