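import Pool.Agent.H13.TFG.Hom

/-!
# Windows

`win T B k = T ^ k '' B`. `Small T B R L`: the sets `win T B k`, `|k| ≤ R`, are disjoint from `B` for `k ≠ 0`, and every
set in `L` contains `win T B k` or is disjoint from it, for all `|k| ≤ R`.
-/

set_option autoImplicit false

namespace Pool.Agent.H13.TFG

variable {X : Type} [TopologicalSpace X] {T : X ≃ₜ X} {x0 : X}

/-- the translate of `B` by `T ^ k` -/
def win (T : X ≃ₜ X) (B : Set X) (k : ℤ) : Set X := (pT T ^ k) '' B

/-- `B` is small for the radius `R` and the sets in `L` -/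
structure Small (T : X ≃ₜ X) (B : Set X) (R : ℤ) (L : Set (Set X)) : Prop where
  /-- `B` is not visited again within `R` steps -/
  sep : ∀ k : ℤ, k ≠ 0 → |k| ≤ R → ∀ x ∈ B, (pT T ^ k) x ∉ B
  /-- membership in the sets of `L` is constant on the translates of `B` -/
  uni : ∀ E ∈ L, ∀ k : ℤ, |k| ≤ R → ∀ x ∈ B, ∀ y ∈ B, (pT T ^ k) x ∈ E → (pT T ^ k) y ∈ E

theorem Small.mono {B : Set X} {R R' : ℤ} {L L' : Set (Set X)} (h : Small T B R L) (hR : R' ≤ R)
    (hL : L' ⊆ L) : Small T B R' L' :=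
  ⟨fun k h0 hk => h.sep k h0 (hk.trans hR), fun E hE k hk => h.uni E (hL hE) k (hk.trans hR)⟩

end Pool.Agent.H13.TFG
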