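import Pool.Agent.H13.TFG.ZetDef

/-!
# Normal form in the free abelian group generated by windows
-/

set_option autoImplicit false

namespace Pool.Agent.H13.TFG

variable {X : Type} [TopologicalSpace X] {T : X ≃ₜ X} {x0 : X}

open SemidirectProduct (inl inr)

/-- Normal form. Proof. Let `I = {k : ℤ // |k| ≤ R}` (finite). For `k ≠ l` in `I` the generators `v k`, `v l` of the
windows (`winV`) commute (`gen_comm`, `win_disjoint`; the windows are not empty), so there is a homomorphism
`θ : (I → Multiplicative ℤ) →* RAAG` (`MonoidHom.noncommPiCoprod` of the `zpowersHom`s) with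
`θ (Pi.mulSingle k m) = v k ^ m`. Its range contains `ZW B R`: `ζ = θ n`. For `χ` as in `IsChi` for `k ∈ I`,
`χ (θ n) = n k` (both sides are homomorphisms in `n`, compare on `Pi.mulSingle`). So `n = 1`. -/
theorem zeta_one (S : Sys T x0) (B : Nb x0) {R : ℤ} (h : Small T B.set (2 * R) ∅)
    {ζ : RAAG (GR T B.set)} (hζ : ζ ∈ ZW B R)
    (h1 : ∀ k : ℤ, |k| ≤ R → ∀ χ : RAAG (GR T B.set) →* Multiplicative ℤ, IsChi T B k χ → χ ζ = 1) :
    ζ = 1 := by
  classical
  have habs : ∀ k : {k : ℤ // k ∈ Finset.Icc (-R) R}, |k.1| ≤ R := fun k =>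
    abs_le.2 (Finset.mem_Icc.1 k.2)
  have habs2 : ∀ k : {k : ℤ // k ∈ Finset.Icc (-R) R}, |k.1| ≤ 2 * R := fun k => by
    have h2 := habs k
    have h3 := abs_nonneg k.1
    linarith
  let V : {k : ℤ // k ∈ Finset.Icc (-R) R} → VS T B.set := fun k => winV S B h k.1 (habs2 k)
  have hV : ∀ k, (V k).set = win T B.set k.1 := fun k => rfl
  have hdis : ∀ k l, k ≠ l → Disjoint (V k).set (V l).set := by
    intro k l hkl
    exact win_disjoint h (habs k) (habs l) (fun h' => hkl (Subtype.ext h'))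
  have hadj : ∀ k l, k ≠ l → (GR T B.set).Adj (V k) (V l) := by
    intro k l hkl
    refine ⟨fun h' => ?_, hdis k l hkl⟩
    have h2 := hdis k l hkl
    rw [h'] at h2
    obtain ⟨x, hx⟩ := VS.nonempty B (V l)
    exact Set.disjoint_left.1 h2 hx hx
  let φ : ∀ _ : {k : ℤ // k ∈ Finset.Icc (-R) R}, Multiplicative ℤ →* RAAG (GR T B.set) :=
    fun k => zpowersHom _ (gen (GR T B.set) (V k))
  have hφ : ∀ k m, φ k m = gen (GR T B.set) (V k) ^ (Multiplicative.toAdd m) := fun k m => rfl
  have hcomm : Pairwise fun k l => ∀ x y, Commute (φ k x) (φ l y) := by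
    intro k l hkl x y
    rw [hφ, hφ]
    exact Commute.zpow_zpow (gen_comm (hadj k l hkl)) _ _
  let θ : ({k : ℤ // k ∈ Finset.Icc (-R) R} → Multiplicative ℤ) →* RAAG (GR T B.set) :=
    MonoidHom.noncommPiCoprod φ hcomm
  have hθ : ∀ k m, θ (Pi.mulSingle k m) = gen (GR T B.set) (V k) ^ (Multiplicative.toAdd m) := by
    intro k m
    exact (MonoidHom.noncommPiCoprod_mulSingle (hcomm := hcomm) φ k m).trans (hφ k m)
  have hrange : ZW (T := T) B R ≤ θ.range := by
    rw [ZW, Subgroup.closure_le]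
    rintro g ⟨E, k, hk, hE, rfl⟩
    refine ⟨Pi.mulSingle ⟨k, Finset.mem_Icc.2 (abs_le.1 hk)⟩ (Multiplicative.ofAdd 1), ?_⟩
    rw [hθ, toAdd_ofAdd, zpow_one]
    congr 1
    exact VS.ext hE.symm
  obtain ⟨n, rfl⟩ := hrange hζ
  have hn : n = 1 := by
    funext k
    let χ : RAAG (GR T B.set) →* Multiplicative ℤ :=
      raagLift (GR T B.set) (fun E => if E.set = win T B.set k.1 then Multiplicative.ofAdd 1 else 1)
        (fun _ _ _ => mul_comm _ _)
    have hχ1 : ∀ E, χ (gen (GR T B.set) E) =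
        if E.set = win T B.set k.1 then Multiplicative.ofAdd 1 else 1 := by
      intro E
      exact raagLift_gen _ _ _ _
    have hχ : IsChi T B k.1 χ := by
      refine ⟨fun E hE => ?_, fun E hE => ?_⟩
      · rw [hχ1, if_pos hE]
      · rw [hχ1, if_neg hE]
    have h3 : χ.comp θ = Pi.evalMonoidHom (fun _ => Multiplicative ℤ) k := by
      apply MonoidHom.functions_ext
      intro l m
      rw [MonoidHom.comp_apply, hθ, map_zpow, Pi.evalMonoidHom_apply]
      by_cases hlk : l = k
      · subst hlk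
        rw [hχ1, if_pos (hV l), Pi.mulSingle_eq_same, ← ofAdd_zsmul, smul_eq_mul, mul_one, ofAdd_toAdd]
      · rw [hχ1, if_neg, one_zpow, Pi.mulSingle_eq_of_ne (Ne.symm hlk)]
        intro h'
        have h4 := hdis l k hlk
        rw [hV k, ← h'] at h4
        obtain ⟨x, hx⟩ := VS.nonempty B (V l)
        exact Set.disjoint_left.1 h4 hx hx
    have h5 := h1 k.1 (habs k) χ hχ
    have h6 := DFunLike.congr_fun h3 n
    rw [MonoidHom.comp_apply, Pi.evalMonoidHom_apply, h5] at h6
    exact h6.symm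
  rw [hn, map_one]

end Pool.Agent.H13.TFG
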