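import Pool.Agent.H13.TFG.ZetDef

/-!
# Powers of first return maps have no fixed points
-/

set_option autoImplicit false

namespace Pool.Agent.H13.TFG

variable {X : Type} [TopologicalSpace X] {T : X ≃ₜ X} {x0 : X}

open SemidirectProduct (inl inr)

omit [TopologicalSpace X] in
theorem zetc_pow {P : Equiv.Perm X} {E : Set X} (hE : Rec P E) {x : X} (hx : x ∈ E) (n : ℕ) :
    ((ret P E) ^ n) x ∈ E ∧ ∃ m : ℕ, n ≤ m ∧ ((ret P E) ^ n) x = (P ^ m) x := by
  induction n with
  | zero => exact ⟨by simpa using hx, 0, le_rfl, rfl⟩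
  | succ n ih =>
    obtain ⟨h1, m, hm, h2⟩ := ih
    have h3 : ((ret P E) ^ (n + 1)) x = ret P E (((ret P E) ^ n) x) := by
      rw [pow_succ']
      rfl
    refine ⟨by rw [h3]; exact ret_mem hE h1, hit P E (P (((ret P E) ^ n) x)) + (1 + m),
      by omega, ?_⟩
    rw [h3, ret_of_mem hE h1, fst, pow_add, pow_add, pow_one]
    show _ = (P ^ hit P E (P (((ret P E) ^ n) x))) (P ((P ^ m) x))
    rw [← h2]

/-- A power of a first return map with exponent different from 0 moves every point of the set (no periodic points).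
Proof: for `n ≥ 1`, `x ∈ E`: `(ret (pT T) E) ^ n x = T ^ m x` with `m ≥ n` (natural numbers, induction, the first
return is `T ^ (j + 1)`); use `S.aper`. For `n < 0` apply this to `-n` and the point `(ret (pT T) E) ^ n x = x`. -/
theorem ret_zpow_ne (S : Sys T x0) {E : Set X} (hE : Rec (pT T) E) {x : X} (hx : x ∈ E) {n : ℤ}
    (h : ((ret (pT T) E) ^ n) x = x) : n = 0 := by
  have key : ∀ k : ℕ, ((ret (pT T) E) ^ k) x = x → k = 0 := by
    intro k hk
    obtain ⟨-, m, hm, h2⟩ := zetc_pow hE hx k
    rw [hk] at h2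
    have h3 : (pT T ^ (m : ℤ)) x = x := by
      rw [zpow_natCast]
      exact h2.symm
    have := S.aper x m h3
    omega
  obtain ⟨k, rfl | rfl⟩ := n.eq_nat_or_neg
  · rw [zpow_natCast] at h
    have := key k h
    omega
  · rw [zpow_neg, zpow_natCast, Equiv.Perm.inv_eq_iff_eq] at h
    have := key k h.symm
    omega

end Pool.Agent.H13.TFG
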