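import Pool.Agent.H13.TFG.ZetDef

/-!
# Prescribed powers on the windows
-/

set_option autoImplicit false

namespace Pool.Agent.H13.TFG

variable {X : Type} [TopologicalSpace X] {T : X ≃ₜ X} {x0 : X}

open SemidirectProduct (inl inr)

omit [TopologicalSpace X] in
/-- powers of a first return map preserve the set -/
theorem ret_zpow_mem_zetD {P : Equiv.Perm X} {E : Set X} (hE : Rec P E) {x : X} (hx : x ∈ E)
    (n : ℤ) : (ret P E ^ n) x ∈ E := by
  induction n with
  | zero => simpa using hx
  | succ i ih =>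
    rw [add_comm, zpow_add, zpow_one]
    exact ret_mem hE ih
  | pred i ih =>
    rw [sub_eq_add_neg, add_comm, zpow_add, zpow_neg_one]
    exact ret_inv_mem hE ih

omit [TopologicalSpace X] in
/-- powers of a first return map fix the other points -/
theorem ret_zpow_fix_zetD {P : Equiv.Perm X} {E : Set X} {x : X} (hx : x ∉ E) (n : ℤ) :
    (ret P E ^ n) x = x :=
  Equiv.Perm.zpow_apply_eq_self_of_apply_eq_self (ret_of_notMem hx) n

theorem exists_tau_fin (S : Sys T x0) (B : Nb x0) {R : ℤ} (h : Small T B.set (2 * R) ∅) (n : ℤ → ℤ)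
    (K : Finset ℤ) (hK : ∀ k ∈ K, |k| ≤ R) :
    ∃ τ : RAAG (GR T B.set),
      (∀ k ∈ K, ∀ x ∈ win T B.set k,
        psi S B (inl τ) x = ((ret (pT T) (win T B.set k)) ^ (n k)) x) ∧
      (∀ x, (∀ k ∈ K, x ∉ win T B.set k) → psi S B (inl τ) x = x) := by
  classical
  induction K using Finset.induction_on with
  | empty => exact ⟨1, by simp, by simp⟩
  | insert a K ha ih =>
    obtain ⟨τ, h1, h2⟩ := ih fun k hk => hK k (Finset.mem_insert_of_mem hk)
    have haR : |a| ≤ R := hK a (Finset.mem_insert_self _ _)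
    have hR : R ≤ 2 * R := by
      have := abs_nonneg a
      linarith
    have hS : Small T B.set R ∅ := h.mono hR (subset_refl _)
    have hrec : ∀ k, |k| ≤ R → Rec (pT T) (win T B.set k) := fun k hk =>
      VS.rec' S B (winV S B hS k hk)
    refine ⟨gen (GR T B.set) (winV S B hS a haR) ^ (n a) * τ, ?_, ?_⟩
    · intro k hk x hx
      rw [map_mul, map_mul, map_zpow, map_zpow, psi_gen, Equiv.Perm.mul_apply]
      change (ret (pT T) (win T B.set a) ^ n a) (psi S B (inl τ) x) = _
      rcases Finset.mem_insert.1 hk with rfl | hk'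
      · rw [h2 x fun l hl hxl => ?_]
        have hne : l ≠ k := fun h' => ha (h' ▸ hl)
        exact Set.disjoint_left.1 (win_disjoint h (hK l (Finset.mem_insert_of_mem hl)) haR hne)
          hxl hx
      · rw [h1 k hk' x hx]
        apply ret_zpow_fix_zetD
        have hkR := hK k hk
        have h3 := ret_zpow_mem_zetD (hrec k hkR) hx (n k)
        have hne : k ≠ a := fun h' => ha (h' ▸ hk')
        exact Set.disjoint_left.1 (win_disjoint h hkR haR hne) h3
    · intro x hx
      rw [map_mul, map_mul, map_zpow, map_zpow, psi_gen, Equiv.Perm.mul_apply,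
        h2 x fun k hk => hx k (Finset.mem_insert_of_mem hk)]
      exact ret_zpow_fix_zetD (hx a (Finset.mem_insert_self _ _)) _

/-- Proof: for a finite set `K` of integers `k` with `|k| ≤ R` there is `τ` which acts on the window `k ∈ K` as
`ret ^ (n k)` and is the identity off these windows: induction on `K` (insert `k`: multiply by `gen (winV k) ^ (n k)`;
windows are disjoint and mapped to themselves by their first return maps). Take `K = Finset.Icc (-R) R`. -/
theorem exists_tau (S : Sys T x0) (B : Nb x0) {R : ℤ} (h : Small T B.set (2 * R) ∅) (n : ℤ → ℤ) :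
    ∃ τ : RAAG (GR T B.set),
      (∀ k : ℤ, |k| ≤ R → ∀ x ∈ win T B.set k,
        psi S B (inl τ) x = ((ret (pT T) (win T B.set k)) ^ (n k)) x) ∧
      (∀ x, (∀ k : ℤ, |k| ≤ R → x ∉ win T B.set k) → psi S B (inl τ) x = x) := by
  obtain ⟨τ, h1, h2⟩ := exists_tau_fin S B h n (Finset.Icc (-R) R) fun k hk => by
    rw [Finset.mem_Icc] at hk
    exact abs_le.2 hk
  refine ⟨τ, fun k hk => h1 k (Finset.mem_Icc.2 (abs_le.1 hk)), fun x hx => h2 x fun k hk => ?_⟩
  rw [Finset.mem_Icc] at hk
  exact hx k (abs_le.2 hk)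

end Pool.Agent.H13.TFG
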