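import Pool.Agent.H13.TFG.ZetA
import Pool.Agent.H13.TFG.ZetB
import Pool.Agent.H13.TFG.ZetC
import Pool.Agent.H13.TFG.ZetD

/-!
# Products of generators of windows which preserve blocks are trivial
-/

set_option autoImplicit false

namespace Pool.Agent.H13.TFG

variable {X : Type} [TopologicalSpace X] {T : X ≃ₜ X} {x0 : X}

open SemidirectProduct (inl inr)

/-- Proof. `x` in the window `k`: `psi S B (inl ζ) x = ret ^ (χ ζ) x` is in the window (which is a section) and in the
block of `x`, so it is `x` (uniqueness in `IsSec`), so `χ ζ = 0` by `ret_zpow_ne` (the window is not empty). Now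
`zeta_one`. -/
theorem zeta_eq_one (S : Sys T x0) (B : Nb x0) {R : ℤ} (h : Small T B.set (2 * R) ∅)
    {ζ : RAAG (GR T B.set)} (hζ : ζ ∈ ZW B R) (hp : Pres (pT T) B.set (psi S B (inl ζ))) :
    ζ = 1 := by
  have hR : Small T B.set R ∅ := by
    refine ⟨fun k h0 hk => h.sep k h0 ?_, fun E hE => absurd hE (Set.notMem_empty E)⟩
    have := abs_nonneg k
    omega
  refine zeta_one S B h hζ ?_
  intro k hk χ hχ
  have hsec := isSec_win S B hR hk
  have hrec : Rec (pT T) (win T B.set k) := hsec.rec' (B.rec' S)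
  have hx : ((pT T) ^ k) x0 ∈ win T B.set k := ⟨x0, B.mem, rfl⟩
  set x := ((pT T) ^ k) x0 with hxdef
  have h1 := zeta_act S B h hk hχ hζ hx
  have hpow : ∀ n : ℤ, ∀ y ∈ win T B.set k,
      ((ret (pT T) (win T B.set k)) ^ n) y ∈ win T B.set k := by
    intro n
    induction n using Int.induction_on with
    | zero => intro y hy; exact hy
    | succ n ih =>
      intro y hy
      rw [zpow_add_one]
      exact ih _ (ret_mem hrec hy)
    | pred n ih =>
      intro y hy
      rw [zpow_sub_one]
      exact ih _ (ret_inv_mem hrec hy)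
  have h2 : psi S B (inl ζ) x ∈ win T B.set k := by
    rw [h1]
    exact hpow _ x hx
  have h3 : bas (pT T) B.set (psi S B (inl ζ) x) = bas (pT T) B.set x := hp x
  have h4 : psi S B (inl ζ) x = x :=
    (hsec (bas (pT T) B.set x) (bas_mem (B.rec' S) x)).unique ⟨h2, h3⟩ ⟨hx, rfl⟩
  rw [h1] at h4
  have h5 := ret_zpow_ne S hrec hx h4
  rw [← ofAdd_toAdd (χ ζ), h5]
  rfl

end Pool.Agent.H13.TFG
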