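import Pool.Agent.H13.TFG.ZetDef

/-!
# Counting homomorphisms and the action on a window
-/

set_option autoImplicit false

namespace Pool.Agent.H13.TFG

variable {X : Type} [TopologicalSpace X] {T : X ≃ₜ X} {x0 : X}

open SemidirectProduct (inl inr)

open Classical in
/-- Proof: `raagLift` with values in a commutative group. -/
theorem exists_chi (B : Nb x0) (k : ℤ) :
    ∃ χ : RAAG (GR T B.set) →* Multiplicative ℤ, IsChi T B k χ := by
  refine ⟨raagLift _ (fun E => if E.set = win T B.set k then Multiplicative.ofAdd 1 else 1)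
    (fun x y _ => mul_comm _ _), fun E hE => ?_, fun E hE => ?_⟩
  · rw [raagLift_gen, if_pos hE]
  · rw [raagLift_gen, if_neg hE]

omit [TopologicalSpace X] in
theorem zpow_mem_of {P : Equiv.Perm X} {E : Set X} (h1 : ∀ x ∈ E, P x ∈ E)
    (h2 : ∀ x ∈ E, P⁻¹ x ∈ E) (n : ℤ) : ∀ x ∈ E, (P ^ n) x ∈ E := by
  induction n using Int.induction_on with
  | zero =>
    intro x hx
    exact hx
  | succ i ih =>
    intro x hx
    rw [zpow_add_one]
    exact ih _ (h1 x hx)
  | pred i ih =>
    intro x hx
    rw [zpow_sub_one]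
    exact ih _ (h2 x hx)

/-- Elements of `ZW B R` act on the window `k` as the power `χ ζ` of the first return map. Proof: closure induction
for the statement `∀ x ∈ win T B k, ...`; the generator of the window `l ≠ k` fixes `x` (`win_disjoint`,
`ret_of_notMem`) and has `χ = 1`; the first return map and its inverse map `win T B k` to itself (`ret_mem`,
`ret_inv_mem`), so all powers do. -/
theorem zeta_act (S : Sys T x0) (B : Nb x0) {R : ℤ} (h : Small T B.set (2 * R) ∅) {k : ℤ}
    (hk : |k| ≤ R) {χ : RAAG (GR T B.set) →* Multiplicative ℤ} (hχ : IsChi T B k χ)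
    {ζ : RAAG (GR T B.set)} (hζ : ζ ∈ ZW B R) {x : X} (hx : x ∈ win T B.set k) :
    psi S B (inl ζ) x = ((ret (pT T) (win T B.set k)) ^ (Multiplicative.toAdd (χ ζ))) x := by
  have hne : (win T B.set k).Nonempty := ⟨_, x0, B.mem, rfl⟩
  have hrec : Rec (pT T) (win T B.set k) := (isSec_win S B (h.mono (by have := abs_nonneg k; omega) le_rfl) hk).rec' (B.rec' S)
  have hz : ∀ n : ℤ, ∀ x ∈ win T B.set k, ((ret (pT T) (win T B.set k)) ^ n) x ∈ win T B.set k :=
    zpow_mem_of (fun x hx => ret_mem hrec hx) (fun x hx => ret_inv_mem hrec hx)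
  revert x
  refine Subgroup.closure_induction (p := fun ζ _ => ∀ {x : X}, x ∈ win T B.set k →
    psi S B (inl ζ) x = ((ret (pT T) (win T B.set k)) ^ (Multiplicative.toAdd (χ ζ))) x)
    ?_ ?_ ?_ ?_ hζ
  · rintro g ⟨E, l, hl, hE, rfl⟩ x hx
    rw [psi_gen]
    by_cases hlk : l = k
    · subst hlk
      rw [hχ.1 E hE, hE]
      simp
    · have hd : Disjoint (win T B.set l) (win T B.set k) := win_disjoint h hl hk hlk
      have hne' : E.set ≠ win T B.set k := by
        intro h'
        rw [← hE, h'] at hd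
        obtain ⟨y, hy⟩ := hne
        exact Set.disjoint_left.1 hd hy hy
      have hxE : x ∉ E.set := by
        rw [hE]
        exact fun h' => Set.disjoint_left.1 hd h' hx
      rw [hχ.2 E hne', ret_of_notMem hxE]
      simp
  · intro x hx
    simp
  · intro g g' _ _ hg hg' x hx
    rw [map_mul, map_mul, map_mul, toAdd_mul, zpow_add, Equiv.Perm.mul_apply,
      Equiv.Perm.mul_apply, hg' hx, hg (hz _ _ hx)]
  · intro g _ hg x hx
    rw [map_inv, map_inv, map_inv, toAdd_inv, Equiv.Perm.inv_eq_iff_eq, hg (hz _ _ hx),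
      ← Equiv.Perm.mul_apply, ← zpow_add]
    simp

end Pool.Agent.H13.TFG
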