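import Pool.Agent.H13.TFG.Win

/-!
# Products of generators which belong to windows
-/

set_option autoImplicit false

namespace Pool.Agent.H13.TFG

variable {X : Type} [TopologicalSpace X] {T : X ≃ₜ X} {x0 : X}

open SemidirectProduct (inl inr)

/-- the subgroup generated by the windows `win T B k`, `|k| ≤ r` -/
def ZW (B : Nb x0) (r : ℤ) : Subgroup (RAAG (GR T B.set)) :=
  Subgroup.closure
    {g | ∃ (E : VS T B.set) (k : ℤ), |k| ≤ r ∧ E.set = win T B.set k ∧ g = gen (GR T B.set) E}

/-- `χ` counts the occurrences of the window `k` -/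
def IsChi (T : X ≃ₜ X) (B : Nb x0) (k : ℤ) (χ : RAAG (GR T B.set) →* Multiplicative ℤ) : Prop :=
  (∀ E : VS T B.set, E.set = win T B.set k → χ (gen _ E) = Multiplicative.ofAdd 1) ∧
  (∀ E : VS T B.set, E.set ≠ win T B.set k → χ (gen _ E) = 1)

end Pool.Agent.H13.TFG
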